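import Pool.Agent.Lib.MP_3240be_co.H19K.Clo

/-!
# MP_3240be_co: the field `forest` of `Blobs` from a sparse hypergraph (row FOR)
-/

set_option autoImplicit false

namespace MP3240K

open Finset
open Pool.Agent.Lib.MP_3240be_co.H36.Chrom (Sparse Leaf)

/-- Two different points of a hyperedge are not connected by a small family of other hyperedges
of a sparse hypergraph. -/
theorem forest_of_sparse {T V M : Type} {g : ℕ} {δ : M → T → V} (hs : Sparse g δ)
    (hinj : ∀ m, Function.Injective (δ m)) : ∀ (k : ℕ) (U : Finset M), U.card = k → ∀ b, b ∉ U →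
    U.card + 1 ≤ g → ∀ t t', t ≠ t' → ¬ Relation.ReflTransGen
      (fun Z Z' => ∃ b' ∈ U, (∃ s, δ b' s = Z) ∧ ∃ s, δ b' s = Z') (δ b t) (δ b t') := by
  classical
  intro k
  induction k with
  | zero =>
    intro U hU b hb hg t t' htt hr
    rw [Finset.card_eq_zero] at hU
    subst hU
    apply htt
    apply hinj b
    rcases Relation.ReflTransGen.cases_tail hr with h | ⟨c, -, b', hb', -⟩
    · exact h.symm
    · exact absurd hb' (Finset.notMem_empty _)
  | succ k ih =>
    intro U hU b hb hg t t' htt hr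
    -- a leaf different from `b`
    have hS2 : 2 ≤ (insert b U).card := by
      rw [Finset.card_insert_of_notMem hb]
      omega
    have hSg : (insert b U).card ≤ g := by
      rw [Finset.card_insert_of_notMem hb]
      exact hg
    obtain ⟨m, hmU, hleaf⟩ : ∃ m ∈ U, Leaf δ (insert b U) m := by
      obtain ⟨m, hm, m', hm', hne, hl, hl'⟩ := hs _ hS2 hSg
      by_cases hmb : m = b
      · refine ⟨m', ?_, hl'⟩
        rcases Finset.mem_insert.mp hm' with h | h
        · exact absurd (hmb.trans h.symm) hne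
        · exact h
      · refine ⟨m, ?_, hl⟩
        rcases Finset.mem_insert.mp hm with h | h
        · exact absurd h hmb
        · exact h
    have hmb : m ≠ b := fun h => hb (h ▸ hmU)
    -- the path without `m`
    have key : ∀ Z, Relation.ReflTransGen
        (fun Z Z' => ∃ b' ∈ U, (∃ s, δ b' s = Z) ∧ ∃ s, δ b' s = Z') (δ b t) Z →
        ((∃ a ∈ insert b U, a ≠ m ∧ ∃ s, δ a s = Z) → Relation.ReflTransGen
          (fun Z Z' => ∃ b' ∈ U.erase m, (∃ s, δ b' s = Z) ∧ ∃ s, δ b' s = Z') (δ b t) Z) ∧
        ((∃ s, δ m s = Z) → ∃ p, (∃ s, δ m s = p) ∧ (∃ a ∈ insert b U, a ≠ m ∧ ∃ s, δ a s = p) ∧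
          Relation.ReflTransGen
          (fun Z Z' => ∃ b' ∈ U.erase m, (∃ s, δ b' s = Z) ∧ ∃ s, δ b' s = Z') (δ b t) p) := by
      intro Z hZ
      induction hZ with
      | refl =>
        refine ⟨fun _ => Relation.ReflTransGen.refl, ?_⟩
        intro h
        exact ⟨δ b t, h, ⟨b, Finset.mem_insert_self _ _, Ne.symm hmb, t, rfl⟩,
          Relation.ReflTransGen.refl⟩
      | tail _ h2 ih2 =>
        rename_i Z1 Z2 _
        obtain ⟨b', hb', hs1, hs2⟩ := h2
        obtain ⟨ih3, ih4⟩ := ih2
        by_cases hbm : b' = m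
        · rw [hbm] at hs1 hs2
          obtain ⟨p, hp1, hp2, hp3⟩ := ih4 hs1
          refine ⟨?_, fun _ => ⟨p, hp1, hp2, hp3⟩⟩
          rintro ⟨a, ha, ham, sa, hsa⟩
          -- the common points of `m` are equal
          obtain ⟨sp, hsp⟩ := hp1
          obtain ⟨a', ha', ham', sa', hsa'⟩ := hp2
          obtain ⟨s2, hs2'⟩ := hs2
          have h5 : δ m sp = δ m s2 := hleaf a' ha' a ha ham' ham sp sa' s2 sa
            (by rw [hsp, hsa']) (by rw [hs2', hsa])
          rw [← hs2', ← h5, hsp]
          exact hp3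
        · have h5 : ∃ a ∈ insert b U, a ≠ m ∧ ∃ s, δ a s = Z1 :=
            ⟨b', Finset.mem_insert_of_mem hb', hbm, hs1⟩
          have h6 := (ih3 h5).tail ⟨b', Finset.mem_erase.mpr ⟨hbm, hb'⟩, hs1, hs2⟩
          refine ⟨fun _ => h6, ?_⟩
          intro h7
          exact ⟨Z2, h7, ⟨b', Finset.mem_insert_of_mem hb', hbm, hs2⟩, h6⟩
    have h8 := (key _ hr).1 ⟨b, Finset.mem_insert_self _ _, Ne.symm hmb, t', rfl⟩
    have hc : (U.erase m).card = k := by
      rw [Finset.card_erase_of_mem hmU, hU]
      omega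
    exact ih (U.erase m) hc b (fun h => hb (Finset.mem_of_mem_erase h)) (by omega) t t' htt h8

/-- The field `forest` of `Blobs`. -/
theorem forest_field {d q n g : ℕ} {β ζ W : Type} {P : β → Fin q → ζ} (hs : Sparse g P)
    (hinj : ∀ b, Function.Injective (P b)) (hd : d + 1 ≤ g)
    (loc : Fin d → (β × Fin n) ⊕ (ζ × W)) :
    ∀ b t t', t ≠ t' → ¬ Relation.ReflTransGen (Lk P loc b) (P b t) (P b t') := by
  classical
  intro b t t' htt hr
  set f : Fin d → Option β := fun u => match loc u with
    | .inl p => some p.1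
    | .inr _ => none with hf
  set U : Finset β := (Finset.eraseNone (univ.image f)).erase b with hU
  have hfm : ∀ b', (∃ u i, loc u = .inl (b', i)) → b' ∈ Finset.eraseNone (univ.image f) := by
    rintro b' ⟨u, i, hu⟩
    rw [Finset.mem_eraseNone, Finset.mem_image]
    refine ⟨u, Finset.mem_univ _, ?_⟩
    show (match loc u with
      | .inl p => some p.1
      | .inr _ => none) = some b'
    rw [hu]
  have hcard : U.card ≤ d := by
    refine (Finset.card_erase_le).trans ?_
    refine (Finset.card_eraseNone_le _).trans ?_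
    refine Finset.card_image_le.trans ?_
    rw [Finset.card_univ, Fintype.card_fin]
  refine forest_of_sparse hs hinj _ U rfl b (Finset.notMem_erase b _) (by omega) t t' htt ?_
  refine Relation.ReflTransGen.mono ?_ _ _ hr
  rintro Z Z' ⟨b', hne, hused, h1, h2⟩
  exact ⟨b', Finset.mem_erase.mpr ⟨hne, hfm b' hused⟩, h1, h2⟩

/-- The partite form of a sparse hypergraph is sparse. -/
theorem sparse_partite {M I : Type} {q g : ℕ} {io : M → Fin q → I} (hs : Sparse g io)
    (hinj : ∀ b, Function.Injective (io b)) :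
    Sparse g (fun b (j : Fin q) => ((j, io b j) : Fin q × I)) := by
  intro S h2 hg
  obtain ⟨m, hm, m', hm', hne, hl, hl'⟩ := hs S h2 hg
  have key : ∀ a, Leaf io S a → Leaf (fun b (j : Fin q) => ((j, io b j) : Fin q × I)) S a := by
    intro a ha b hb c hc hba hca t t' s s' h1 h2
    have h3 := ha b hb c hc hba hca t t' s s' (congrArg Prod.snd h1) (congrArg Prod.snd h2)
    have h4 := hinj a h3
    show ((t, io a t) : Fin q × I) = (s, io a s)
    rw [h4]
  exact ⟨m, hm, m', hm', hne, key m hl, key m' hl'⟩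

/-- Disjoint copies of a sparse hypergraph are sparse. -/
theorem sparse_copies {M T V A : Type} {g : ℕ} {δ : M → T → V} (hs : Sparse g δ) :
    Sparse g (fun (p : A × M) (t : T) => ((p.1, δ p.2 t) : A × V)) := by
  classical
  intro S h2 hg
  by_cases hcl : ∃ a, 2 ≤ (S.filter (fun p => p.1 = a)).card
  · obtain ⟨a, ha⟩ := hcl
    set C := (S.filter (fun p => p.1 = a)).image Prod.snd with hC
    have hCm : ∀ m, m ∈ C ↔ (a, m) ∈ S := by
      intro m
      rw [hC, Finset.mem_image]
      constructor
      · rintro ⟨⟨a', m'⟩, hm', rfl⟩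
        obtain ⟨h1, h3⟩ := Finset.mem_filter.mp hm'
        simp only at h3
        rw [← h3]
        exact h1
      · intro h
        exact ⟨(a, m), Finset.mem_filter.mpr ⟨h, rfl⟩, rfl⟩
    have hcard : C.card = (S.filter (fun p => p.1 = a)).card := by
      rw [hC]
      refine Finset.card_image_of_injOn ?_
      intro p hp p' hp' hpp
      have h3 := (Finset.mem_filter.mp (Finset.mem_coe.mp hp)).2
      have h4 := (Finset.mem_filter.mp (Finset.mem_coe.mp hp')).2
      exact Prod.ext (h3.trans h4.symm) hpp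
    have hCg : C.card ≤ g := by
      rw [hcard]
      exact (Finset.card_le_card (Finset.filter_subset _ _)).trans hg
    obtain ⟨m, hm, m', hm', hne, hl, hl'⟩ := hs C (by rw [hcard]; exact ha) hCg
    have key : ∀ k, Leaf δ C k →
        Leaf (fun (p : A × M) (t : T) => ((p.1, δ p.2 t) : A × V)) S (a, k) := by
      rintro k hk ⟨a1, k1⟩ hk1 ⟨a2, k2⟩ hk2 hn1 hn2 t t' s s' h1 h3
      have h4 : a = a1 := congrArg Prod.fst h1
      have h5 : a = a2 := congrArg Prod.fst h3
      subst h4
      subst h5
      have h6 := hk k1 ((hCm _).mpr hk1) k2 ((hCm _).mpr hk2)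
        (fun h => hn1 (by rw [h])) (fun h => hn2 (by rw [h])) t t' s s'
        (congrArg Prod.snd h1) (congrArg Prod.snd h3)
      show ((a, δ k t) : A × V) = (a, δ k s)
      rw [h6]
    exact ⟨(a, m), (hCm m).mp hm, (a, m'), (hCm m').mp hm', fun h => hne (congrArg Prod.snd h),
      key m hl, key m' hl'⟩
  · push Not at hcl
    have hone : ∀ p ∈ S, ∀ p' ∈ S, p.1 = p'.1 → p = p' := by
      intro p hp p' hp' hpp
      by_contra hne
      have h1 := hcl p.1
      have h3 : ({p, p'} : Finset (A × M)) ⊆ S.filter (fun x => x.1 = p.1) := by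
        intro x hx
        rw [Finset.mem_insert, Finset.mem_singleton] at hx
        rcases hx with rfl | rfl
        · exact Finset.mem_filter.mpr ⟨hp, rfl⟩
        · exact Finset.mem_filter.mpr ⟨hp', hpp.symm⟩
      have h4 := Finset.card_le_card h3
      rw [Finset.card_pair hne] at h4
      omega
    have key : ∀ p ∈ S, Leaf (fun (p : A × M) (t : T) => ((p.1, δ p.2 t) : A × V)) S p := by
      intro p hp p1 hp1 p2 _ hn1 _ t t' s s' h1 _
      exact absurd (hone p1 hp1 p hp (congrArg Prod.fst h1).symm) hn1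
    obtain ⟨p, hp, p', hp', hne⟩ := Finset.one_lt_card.mp (by omega : 1 < S.card)
    exact ⟨p, hp, p', hp', hne, key p hp, key p' hp'⟩

end MP3240K
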