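import Pool.Agent.Lib.MP_3240be_co.H19K.Clo2
import Pool.Agent.Lib.MP_3240be_co.H19K.For
import Pool.Agent.Lib.MP_3240be_co.X70.Crq

/-!
# MP_3240be_co, Theorem CORE: the blue gadgets contain no core

The gadget `VQ` of helper70 (slots, passengers, attachments) does not contain `L`: CRQ and the
closure lemma.
-/

set_option autoImplicit false

namespace MP3240K

open Finset MP3240T MP3240W
open MP3240C (BadS MinBad CxB)
open MP3240X (VQ cq bz)
open Pool.Agent.Lib.MP_3240be_co.H36.Chrom (Sparse)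

section

variable {n p s d : ℕ} {H : SimpleGraph (Fin n)} {Bl I2 C : Type}

/-- The place of a slot or a passenger. -/
def IsLoc : VQ H s Bl I2 C → (Bl × Fin n) ⊕ ((Fin s × I2) × Fin n) → Prop
  | .b b w, l => l = .inl (b, w)
  | .z j i v, l => l = .inr ((j, i), v)
  | .g _ _ _ _ _, _ => False

theorem isLoc_inj {a a' : VQ H s Bl I2 C} {l : (Bl × Fin n) ⊕ ((Fin s × I2) × Fin n)}
    (h : IsLoc a l) (h' : IsLoc a' l) : a = a' := by
  rcases a with ⟨b, w⟩ | ⟨j, i, v⟩ | ⟨j, i, φ, w, c⟩ <;>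
    rcases a' with ⟨b', w'⟩ | ⟨j', i', v'⟩ | ⟨j', i', φ', w', c'⟩
  · have h1 : l = .inl (b, w) := h
    have h2 : l = .inl (b', w') := h'
    have h3 := Sum.inl.inj (h1.symm.trans h2)
    have h4 : b = b' := congrArg Prod.fst h3
    have h5 : w = w' := congrArg Prod.snd h3
    rw [h4, h5]
  · have h1 : l = .inl (b, w) := h
    have h2 : l = .inr ((j', i'), v') := h'
    exact absurd (h1.symm.trans h2) (by simp)
  · exact False.elim h'
  · have h1 : l = .inr ((j, i), v) := h
    have h2 : l = .inl (b', w') := h'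
    exact absurd (h1.symm.trans h2) (by simp)
  · have h1 : l = .inr ((j, i), v) := h
    have h2 : l = .inr ((j', i'), v') := h'
    have h3 := Sum.inr.inj (h1.symm.trans h2)
    have h4 : (j, i) = (j', i') := congrArg Prod.fst h3
    have h5 : v = v' := congrArg Prod.snd h3
    have h6 : j = j' := congrArg Prod.fst h4
    have h7 : i = i' := congrArg Prod.snd h4
    rw [h5, h6, h7]
  · exact False.elim h'
  · exact False.elim h
  · exact False.elim h
  · exact False.elim h

/-- **No core in the blue gadgets.** -/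
theorem gadget_free {L : SimpleGraph (Fin d)} {X' : Finset (Fin n)} {xs ys : Fin s → Fin n}
    (hC : Core H (p + 1) L) (hp : 1 ≤ p) (hF : XF H L X' xs ys)
    {ty : Bl → Fin s → H.Dart} {io : Bl → Fin s → I2} {R : C → C → Prop} {A : C → Prop}
    (hX : CxB R A n p) (hinj : ∀ b, Function.Injective (io b)) (hio : Sparse (n * n) io)
    {F : Fin d → VQ H s Bl I2 C} (hFi : Function.Injective F)
    (hadj : ∀ u v, L.Adj u v → cq xs ys ty io R A (F u) (F v))
    (hinn : ∀ u b w, F u = .b b w → w ∉ X' ∧ ∀ j, w ≠ xs j ∧ w ≠ ys j) : False := by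
  classical
  obtain ⟨g, hgi, hgh⟩ := hC.emb
  have hdn : d ≤ n := by
    have := Fintype.card_le_of_injective g hgi
    simpa using this
  have hd2 : 2 ≤ d := by
    obtain ⟨v⟩ := hC.con.nonempty
    obtain ⟨w, hw⟩ := hC.nb (by omega) v
    have h1 : ({v, w} : Finset (Fin d)).card ≤ (univ : Finset (Fin d)).card :=
      Finset.card_le_card (Finset.subset_univ _)
    rw [Finset.card_pair hw.ne, Finset.card_univ, Fintype.card_fin] at h1
    exact h1
  have hnn : n + 1 ≤ n * n := by nlinarith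
  -- CRQ
  have hcrq : ∀ u, ∃ S, u ∈ S ∧ BadS L (p + 1) S ∧
      (∀ S', BadS H (p + 1) S' → S.card ≤ S'.card) ∧ ∃ b, ∀ v ∈ S, (∃ w, F v = .b b w) ∨
      ∃ j, F v = .z j (io b j) (ty b j).fst ∨ F v = .z j (io b j) (ty b j).snd := by
    intro u
    obtain ⟨S, huS, hS, hmin⟩ := hC.heavy u
    have hSn : S.card ≤ n := by
      have h1 := hmin _ (BadS.image (fun i _ j _ hij => hgh i j hij) hS)
      have h2 : (S.image g).card ≤ (univ : Finset (Fin n)).card :=
        Finset.card_le_card (Finset.subset_univ _)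
      rw [Finset.card_univ, Fintype.card_fin] at h2
      exact h1.trans h2
    exact ⟨S, huS, hS, hmin, MP3240X.crq_sparse hF.adj hX hS hmin hSn
      (fun u _ v _ huv => hadj u v huv) hinj hio (hSn.trans (by omega))⟩
  have hloc : ∀ u, ∃ l, IsLoc (F u) l := by
    intro u
    obtain ⟨S, huS, -, -, b, hb⟩ := hcrq u
    rcases hb u huS with ⟨w, h⟩ | ⟨j, h | h⟩
    · rw [h]; exact ⟨_, rfl⟩
    · rw [h]; exact ⟨_, rfl⟩
    · rw [h]; exact ⟨_, rfl⟩
  choose loc hl using hloc
  have hlb : ∀ u b w, F u = .b b w → loc u = .inl (b, w) := by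
    intro u b w h
    have h1 := hl u
    rw [h] at h1
    exact h1
  have hlz : ∀ u j i v, F u = .z j i v → loc u = .inr ((j, i), v) := by
    intro u j i v h
    have h1 := hl u
    rw [h] at h1
    exact h1
  set P : Bl → Fin s → Fin s × I2 := fun b j => (j, io b j) with hP
  set rx : Bl → Fin s → Fin n := fun b j => (ty b j).fst with hrx
  set ry : Bl → Fin s → Fin n := fun b j => (ty b j).snd with hry
  -- an edge between a slot and a passenger
  have hbz : ∀ u v b w j i x, F u = .b b w → F v = .z j i x → bz xs ys ty io b w j i x →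
      InB H P rx ry xs ys loc b u v := by
    intro u v b w j i x hu hv h
    obtain ⟨hi, h1⟩ := h
    rcases h1 with ⟨h2, h3⟩ | ⟨h2, h3⟩
    · refine ⟨w, xs j, Or.inl (hlb u b w hu), Or.inr ⟨j, Or.inl ⟨?_, rfl⟩⟩, h3,
        Or.inl (hlb u b w hu)⟩
      rw [hlz v j i x hv, ← hi, h2]
    · refine ⟨w, ys j, Or.inl (hlb u b w hu), Or.inr ⟨j, Or.inr ⟨?_, rfl⟩⟩, h3,
        Or.inl (hlb u b w hu)⟩
      rw [hlz v j i x hv, ← hi, h2]
  refine blob_closure (r := p + 1) (P := P) (rx := rx) (ry := ry) (loc := loc) hC (by omega) hF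
    ⟨?_, ?_, ?_, ?_, ?_, ?_, ?_⟩
  · intro u v huv
    apply hFi
    have h1 := hl u
    rw [huv] at h1
    exact isLoc_inj h1 (hl v)
  · intro b j
    exact (ty b j).adj.ne
  · intro b b' t t' h
    exact congrArg Prod.fst h
  · intro u v huv
    have h := hadj u v huv
    rcases hu : F u with ⟨b, w⟩ | ⟨j, i, x⟩ | ⟨j, i, φ, w, c⟩ <;>
      rcases hv : F v with ⟨b', w'⟩ | ⟨j', i', x'⟩ | ⟨j', i', φ', w', c'⟩ <;>
      rw [hu, hv] at h
    · obtain ⟨h1, h2⟩ : b = b' ∧ H.Adj w w' := h
      subst h1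
      exact ⟨b, w, w', Or.inl (hlb u b w hu), Or.inl (hlb v b w' hv), h2,
        Or.inl (hlb u b w hu)⟩
    · exact ⟨b, hbz u v b w j' i' x' hu hv h⟩
    · have h1 := hl v
      rw [hv] at h1
      exact False.elim h1
    · exact ⟨b', (hbz v u b' w' j i x hv hu h).symm⟩
    · exact False.elim h
    · have h1 := hl v
      rw [hv] at h1
      exact False.elim h1
    · have h1 := hl u
      rw [hu] at h1
      exact False.elim h1
    · have h1 := hl u
      rw [hu] at h1
      exact False.elim h1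
    · have h1 := hl u
      rw [hu] at h1
      exact False.elim h1
  · intro u b w h
    have hFu : F u = .b b w := by
      have h1 := hl u
      rw [h] at h1
      exact isLoc_inj h1 (show IsLoc (VQ.b b w : VQ H s Bl I2 C) (.inl (b, w)) from rfl)
    exact hinn u b w hFu
  · intro u
    obtain ⟨S, huS, hS, hmin, b, hb⟩ := hcrq u
    refine ⟨S, huS, hS, hmin, b, ?_⟩
    intro v hv
    rcases hb v hv with ⟨w, h⟩ | ⟨j, h | h⟩
    · exact ⟨w, Or.inl (hlb v b w h)⟩
    · exact ⟨xs j, Or.inr ⟨j, Or.inl ⟨hlz v _ _ _ h, rfl⟩⟩⟩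
    · exact ⟨ys j, Or.inr ⟨j, Or.inr ⟨hlz v _ _ _ h, rfl⟩⟩⟩
  · exact forest_field (sparse_partite hio hinj) (fun b j j' h => congrArg Prod.fst h)
      (by omega) loc

end

end MP3240K
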