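import Pool.Agent.Lib.MP_3240be_co.H19K.Clu
import Pool.Agent.Lib.MP_3240be_co.C4.Ctc
import Pool.Agent.Lib.MP_3240be_co.C4.Cri

/-!
# MP_3240be_co: cores (finding 4722 (1) and (2)), concrete form

`L : SimpleGraph (Fin d)` is a core of `H` if it is a 2-connected subgraph of `H`, every vertex of
which lies in a bad set of `L` of the least size of a bad set of `H`, and no larger such graph contains
a copy of it.  Every non-`r`-colourable graph has a core (`exists_core`), and for every independent set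
`X` which meets all copies of `L` in `H` there are an independent set `X'` with `|X'| + 1 ≤ |X|`
and an induced matching without neighbours in `X'` such that every copy of `L` in `H` meets `X'`
or uses an edge of the matching (`Core.xf`).
-/

set_option autoImplicit false

namespace MP3240K

open Finset MP3240T MP3240W
open MP3240C (BadS MinBad)

/-- Every vertex of the set `J` of edges lies in a bad set of `J`, which is not larger than any bad
set of `H`. -/
def SHv {n : ℕ} (H : SimpleGraph (Fin n)) (r : ℕ) (J : Finset (Sym2 (Fin n))) : Prop :=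
  ∀ v ∈ vs J, ∃ S, v ∈ S ∧ BadS (SimpleGraph.fromEdgeSet (J : Set (Sym2 (Fin n)))) r S ∧
    ∀ S', BadS H r S' → S.card ≤ S'.card

/-- The image of (the edges of) `L`. -/
noncomputable def img {n d : ℕ} (L : SimpleGraph (Fin d)) (f : Fin d → Fin n) :
    Finset (Sym2 (Fin n)) := (ed L).image (Sym2.map f)

theorem mem_img {n d : ℕ} {L : SimpleGraph (Fin d)} {f : Fin d → Fin n} {x y : Fin n} :
    s(x, y) ∈ img L f ↔ ∃ a b, L.Adj a b ∧ f a = x ∧ f b = y := by
  classical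
  unfold img
  rw [Finset.mem_image]
  constructor
  · rintro ⟨e, he, hxy⟩
    induction e using Sym2.ind with
    | _ a b =>
      rw [Sym2.map_mk, Sym2.eq_iff] at hxy
      rcases hxy with ⟨h1, h2⟩ | ⟨h1, h2⟩
      · exact ⟨a, b, mem_ed.mp he, h1, h2⟩
      · exact ⟨b, a, (mem_ed.mp he).symm, h2, h1⟩
  · rintro ⟨a, b, hab, rfl, rfl⟩
    exact ⟨s(a, b), mem_ed.mpr hab, by rw [Sym2.map_mk]⟩

theorem mem_vs_img {n d : ℕ} {L : SimpleGraph (Fin d)} {f : Fin d → Fin n} {x : Fin n} :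
    x ∈ vs (img L f) ↔ ∃ a b, L.Adj a b ∧ f a = x := by
  classical
  rw [mem_vs]
  constructor
  · rintro ⟨e, he, hx⟩
    induction e using Sym2.ind with
    | _ u v =>
      obtain ⟨a, b, hab, rfl, rfl⟩ := mem_img.mp he
      rw [Sym2.mem_iff] at hx
      rcases hx with rfl | rfl
      · exact ⟨a, b, hab, rfl⟩
      · exact ⟨b, a, hab.symm, rfl⟩
  · rintro ⟨a, b, hab, rfl⟩
    exact ⟨s(f a, f b), mem_img.mpr ⟨a, b, hab, rfl, rfl⟩, Sym2.mem_mk_left _ _⟩

theorem card_img {n d : ℕ} (L : SimpleGraph (Fin d)) {f : Fin d → Fin n}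
    (hf : Function.Injective f) : (img L f).card = (ed L).card := by
  classical
  unfold img
  exact Finset.card_image_of_injective _ (Sym2.map.injective hf)

theorem TwoC_img {n d : ℕ} {L : SimpleGraph (Fin d)} {f : Fin d → Fin n}
    (hf : Function.Injective f) (hL : TwoC (ed L)) : TwoC (img L f) := by
  classical
  intro J J' hJ hJ' hd hp
  have hmem : ∀ e, e ∈ img L f ↔ ∃ e' ∈ ed L, Sym2.map f e' = e := by
    intro e
    unfold img
    rw [Finset.mem_image]
  obtain ⟨u, v, huv, hu, hv⟩ := hL ((ed L).filter (fun e => Sym2.map f e ∈ J))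
    ((ed L).filter (fun e => Sym2.map f e ∈ J'))
    (by
      obtain ⟨e, he⟩ := hJ
      obtain ⟨e', he', rfl⟩ := (hmem e).mp ((hp e).mpr (Or.inl he))
      exact ⟨e', Finset.mem_filter.mpr ⟨he', he⟩⟩)
    (by
      obtain ⟨e, he⟩ := hJ'
      obtain ⟨e', he', rfl⟩ := (hmem e).mp ((hp e).mpr (Or.inr he))
      exact ⟨e', Finset.mem_filter.mpr ⟨he', he⟩⟩)
    (by
      rw [Finset.disjoint_left]
      intro e he he'
      exact Finset.disjoint_left.mp hd (Finset.mem_filter.mp he).2 (Finset.mem_filter.mp he').2)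
    (by
      intro e
      rw [Finset.mem_filter, Finset.mem_filter]
      constructor
      · intro he
        rcases (hp (Sym2.map f e)).mp ((hmem _).mpr ⟨e, he, rfl⟩) with h | h
        · exact Or.inl ⟨he, h⟩
        · exact Or.inr ⟨he, h⟩
      · rintro (h | h)
        · exact h.1
        · exact h.1)
  have key : ∀ w, Shares ((ed L).filter (fun e => Sym2.map f e ∈ J))
      ((ed L).filter (fun e => Sym2.map f e ∈ J')) w → Shares J J' (f w) := by
    rintro w ⟨⟨e, he, hw⟩, ⟨e', he', hw'⟩⟩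
    exact ⟨⟨_, (Finset.mem_filter.mp he).2, Sym2.mem_map.mpr ⟨w, hw, rfl⟩⟩,
      ⟨_, (Finset.mem_filter.mp he').2, Sym2.mem_map.mpr ⟨w, hw', rfl⟩⟩⟩
  exact ⟨f u, f v, fun h => huv (hf h), key u hu, key v hv⟩

/-- The converse. -/
theorem TwoC_of_img {n d : ℕ} {L : SimpleGraph (Fin d)} {f : Fin d → Fin n}
    (hf : Function.Injective f) (hL : TwoC (img L f)) : TwoC (ed L) := by
  classical
  intro J J' hJ hJ' hd hp
  have hinj : Function.Injective (Sym2.map f) := Sym2.map.injective hf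
  obtain ⟨u, v, huv, hu, hv⟩ := hL (J.image (Sym2.map f)) (J'.image (Sym2.map f))
    (hJ.image _) (hJ'.image _)
    (by
      rw [Finset.disjoint_image hinj]
      exact hd)
    (by
      intro e
      unfold img
      rw [Finset.mem_image, Finset.mem_image, Finset.mem_image]
      constructor
      · rintro ⟨e', he', rfl⟩
        rcases (hp e').mp he' with h | h
        · exact Or.inl ⟨e', h, rfl⟩
        · exact Or.inr ⟨e', h, rfl⟩
      · rintro (⟨e', he', rfl⟩ | ⟨e', he', rfl⟩)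
        · exact ⟨e', (hp e').mpr (Or.inl he'), rfl⟩
        · exact ⟨e', (hp e').mpr (Or.inr he'), rfl⟩)
  have key : ∀ w, Shares (J.image (Sym2.map f)) (J'.image (Sym2.map f)) w →
      ∃ a, f a = w ∧ Shares J J' a := by
    rintro w ⟨⟨e, he, hw⟩, ⟨e', he', hw'⟩⟩
    obtain ⟨e1, he1, rfl⟩ := Finset.mem_image.mp he
    obtain ⟨e2, he2, rfl⟩ := Finset.mem_image.mp he'
    obtain ⟨a, ha, rfl⟩ := Sym2.mem_map.mp hw
    obtain ⟨b, hb, hba⟩ := Sym2.mem_map.mp hw'
    have hab := hf hba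
    rw [hab] at hb
    exact ⟨a, rfl, ⟨e1, he1, ha⟩, ⟨e2, he2, hb⟩⟩
  obtain ⟨a, rfl, ha⟩ := key u hu
  obtain ⟨b, rfl, hb⟩ := key v hv
  exact ⟨a, b, fun h => huv (by rw [h]), ha, hb⟩

/-- `f` embeds `L` into `H`. -/
def IsE {n d : ℕ} (L : SimpleGraph (Fin d)) (H : SimpleGraph (Fin n)) (f : Fin d → Fin n) : Prop :=
  Function.Injective f ∧ ∀ i j, L.Adj i j → H.Adj (f i) (f j)

/-- A core of `H`: a 2-connected self-heavy subgraph which is inclusion-maximal as a type. -/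
structure Core {n d : ℕ} (H : SimpleGraph (Fin n)) (r : ℕ) (L : SimpleGraph (Fin d)) : Prop where
  emb : Emb L H
  con : L.Connected
  two : TwoC (ed L)
  heavy : ∀ v, ∃ S, v ∈ S ∧ BadS L r S ∧ ∀ S', BadS H r S' → S.card ≤ S'.card
  max : ∀ J : Finset (Sym2 (Fin n)), (∀ e ∈ J, e ∈ H.edgeSet) → TwoC J → SHv H r J →
    ∀ f, IsE L H f → img L f ⊆ J → J.card ≤ (ed L).card

theorem BadS.mono {n r : ℕ} {G G' : SimpleGraph (Fin n)} (h : G ≤ G') {S : Finset (Fin n)}
    (hS : BadS G r S) : BadS G' r S := by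
  rintro ⟨κ, hκ⟩
  exact hS ⟨κ, fun a ha b hb hab => hκ a ha b hb (h hab)⟩

/-- The image of a bad set. -/
theorem BadS.image {n d r : ℕ} {L : SimpleGraph (Fin d)} {G : SimpleGraph (Fin n)}
    {f : Fin d → Fin n} {S : Finset (Fin d)}
    (hf : ∀ i ∈ S, ∀ j ∈ S, L.Adj i j → G.Adj (f i) (f j)) (hS : BadS L r S) :
    BadS G r (S.image f) := by
  rintro ⟨κ, hκ⟩
  exact hS ⟨fun a => κ (f a), fun a ha b hb hab => hκ _ (Finset.mem_image_of_mem f ha) _
    (Finset.mem_image_of_mem f hb) (hf a ha b hb hab)⟩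

/-- The vertices of a copy of a core are heavy. -/
theorem heavy_copy {n d r : ℕ} {H : SimpleGraph (Fin n)} {L : SimpleGraph (Fin d)}
    (hh : ∀ v, ∃ S, v ∈ S ∧ BadS L r S ∧ ∀ S', BadS H r S' → S.card ≤ S'.card)
    {J : Finset (Sym2 (Fin n))} {f : Fin d → Fin n} (hf : IsE L H f) (hsub : img L f ⊆ J)
    {v : Fin n} (hvf : v ∈ vs (img L f)) :
    ∃ S, v ∈ S ∧ BadS (SimpleGraph.fromEdgeSet (J : Set (Sym2 (Fin n)))) r S ∧
      ∀ S', BadS H r S' → S.card ≤ S'.card := by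
  classical
  obtain ⟨a, b, hab, rfl⟩ := mem_vs_img.mp hvf
  obtain ⟨S, haS, hS, hmin⟩ := hh a
  refine ⟨S.image f, Finset.mem_image_of_mem f haS, ?_, fun S' hS' =>
    Finset.card_image_le.trans (hmin S' hS')⟩
  refine BadS.image (f := f) ?_ hS
  intro i _ j _ hij
  rw [SimpleGraph.fromEdgeSet_adj]
  exact ⟨Finset.mem_coe.mpr (hsub (mem_img.mpr ⟨i, j, hij, rfl, rfl⟩)),
    fun h => hij.ne (hf.1 h)⟩

/-- A set of edges of which every vertex lies in a copy of the core is self-heavy. -/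
theorem SHv_cover {n d r : ℕ} {H : SimpleGraph (Fin n)} {L : SimpleGraph (Fin d)}
    (hh : ∀ v, ∃ S, v ∈ S ∧ BadS L r S ∧ ∀ S', BadS H r S' → S.card ≤ S'.card)
    {J : Finset (Sym2 (Fin n))}
    (hJ : ∀ v ∈ vs J, ∃ f, IsE L H f ∧ img L f ⊆ J ∧ v ∈ vs (img L f)) : SHv H r J := by
  intro v hv
  obtain ⟨f, hf, hsub, hvf⟩ := hJ v hv
  exact heavy_copy hh hf hsub hvf

/-- The copies of `L` in `H`. -/
noncomputable def cps {n d : ℕ} (H : SimpleGraph (Fin n)) (L : SimpleGraph (Fin d)) :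
    Finset (Finset (Sym2 (Fin n))) := by
  classical exact univ.filter (fun C => ∃ f, IsE L H f ∧ img L f = C)

theorem mem_cps {n d : ℕ} {H : SimpleGraph (Fin n)} {L : SimpleGraph (Fin d)}
    {C : Finset (Sym2 (Fin n))} : C ∈ cps H L ↔ ∃ f, IsE L H f ∧ img L f = C := by
  classical
  simp [cps]

theorem img_sub {n d : ℕ} {H : SimpleGraph (Fin n)} {L : SimpleGraph (Fin d)} {f : Fin d → Fin n}
    (hf : IsE L H f) : ∀ e ∈ img L f, e ∈ H.edgeSet := by
  intro e he
  induction e using Sym2.ind with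
  | _ x y =>
    obtain ⟨a, b, hab, rfl, rfl⟩ := mem_img.mp he
    exact hf.2 a b hab

/-- A core with `2 ≤ r` has two edges. -/
theorem Core.two_edges {n d r : ℕ} {H : SimpleGraph (Fin n)} {L : SimpleGraph (Fin d)}
    (h : Core H r L) (hr : 2 ≤ r) : ∃ e ∈ ed L, ∃ e' ∈ ed L, e ≠ e' := by
  classical
  by_contra hno
  have hno' : ∀ e ∈ ed L, ∀ e' ∈ ed L, e = e' := by
    intro e he e' he'
    by_contra hne
    exact hno ⟨e, he, e', he', hne⟩
  obtain ⟨v⟩ := h.con.nonempty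
  obtain ⟨S, -, hS, -⟩ := h.heavy v
  by_cases hE : ∃ a b, L.Adj a b
  · obtain ⟨a, b, hab⟩ := hE
    refine hS ⟨fun x => if x = a then ⟨0, by omega⟩ else ⟨1, by omega⟩, ?_⟩
    intro x _ y _ hxy
    have h01 : (⟨0, by omega⟩ : Fin r) ≠ ⟨1, by omega⟩ := by
      intro h0
      have h5 := Fin.ext_iff.mp h0
      simp at h5
    have := hno' _ (mem_ed.mpr hab) _ (mem_ed.mpr hxy)
    rw [Sym2.eq_iff] at this
    have hne := hxy.ne
    show (if x = a then (⟨0, by omega⟩ : Fin r) else ⟨1, by omega⟩) ≠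
      (if y = a then (⟨0, by omega⟩ : Fin r) else ⟨1, by omega⟩)
    rcases this with ⟨h1, -⟩ | ⟨h1, -⟩
    · rw [if_pos h1.symm, if_neg (fun h3 => hne (by rw [h3, h1]))]
      exact h01
    · rw [if_pos h1.symm, if_neg (fun h3 => hne (by rw [h3, h1]))]
      exact h01.symm
  · push Not at hE
    exact hS ⟨fun _ => ⟨0, by omega⟩, fun x _ y _ hxy => absurd hxy (hE x y)⟩

/-- Every vertex of a core has a neighbour. -/
theorem Core.nb {n d r : ℕ} {H : SimpleGraph (Fin n)} {L : SimpleGraph (Fin d)}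
    (h : Core H r L) (hr : 2 ≤ r) (i : Fin d) : ∃ j, L.Adj i j := by
  obtain ⟨e, he, e', he', hne⟩ := h.two_edges hr
  by_contra hno
  push Not at hno
  induction e using Sym2.ind with
  | _ a b =>
    have hab := mem_ed.mp he
    by_cases hia : i = a
    · exact hno b (by rw [hia]; exact hab)
    · obtain ⟨w⟩ := h.con.preconnected i a
      cases w with
      | nil => exact hia rfl
      | cons h1 _ => exact hno _ h1

/-- Maximality: a 2-connected self-heavy set of edges which contains a copy of the core is this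
copy. -/
theorem Core.max_eq {n d r : ℕ} {H : SimpleGraph (Fin n)} {L : SimpleGraph (Fin d)}
    (h : Core H r L) {C : Finset (Sym2 (Fin n))} (hC : C ∈ cps H L) {J : Finset (Sym2 (Fin n))}
    (hJ : ∀ e ∈ J, e ∈ H.edgeSet) (hT : TwoC J) (hCJ : C ⊆ J) (hS : SHv H r J) : J = C := by
  obtain ⟨f, hf, rfl⟩ := mem_cps.mp hC
  have h1 := h.max J hJ hT hS f hf hCJ
  rw [← card_img L hf.1] at h1
  exact (Finset.eq_of_subset_of_card_le hCJ h1).symm

/-- The copies of a core satisfy `Copies`. -/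
theorem Core.copies {n d r : ℕ} {H : SimpleGraph (Fin n)} {L : SimpleGraph (Fin d)}
    (h : Core H r L) (hr : 2 ≤ r) : Copies H (cps H L) := by
  classical
  refine ⟨?_, ?_, ?_, ?_⟩
  · intro C hC
    obtain ⟨f, hf, rfl⟩ := mem_cps.mp hC
    exact img_sub hf
  · intro C hC
    obtain ⟨f, hf, rfl⟩ := mem_cps.mp hC
    exact TwoC_img hf.1 h.two
  · intro C hC
    obtain ⟨f, hf, rfl⟩ := mem_cps.mp hC
    obtain ⟨e, he, e', he', hne⟩ := h.two_edges hr
    refine ⟨Sym2.map f e, ?_, Sym2.map f e', ?_, fun h1 => hne (Sym2.map.injective hf.1 h1)⟩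
    · unfold img; exact Finset.mem_image_of_mem _ he
    · unfold img; exact Finset.mem_image_of_mem _ he'
  · intro C hC J hJ hT hCJ hcov
    refine h.max_eq hC hJ hT hCJ (SHv_cover h.heavy ?_)
    intro v hv
    obtain ⟨C', hC', hsub, hv'⟩ := hcov v hv
    obtain ⟨f, hf, rfl⟩ := mem_cps.mp hC'
    exact ⟨f, hf, hsub, hv'⟩

/-- Minimal bad sets exist. -/
theorem exists_minBad {n r : ℕ} {H : SimpleGraph (Fin n)} (hH : ¬ H.Colorable r) :
    ∃ S, MinBad H r S := by
  classical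
  have hb : BadS H r univ := by
    rintro ⟨κ, hκ⟩
    exact hH ⟨SimpleGraph.Coloring.mk κ (fun {a b} hab => hκ a (mem_univ _) b (mem_univ _) hab)⟩
  obtain ⟨S, hS, hmin⟩ := Finset.exists_min_image (univ.filter (fun S => BadS H r S))
    (fun S => S.card) ⟨univ, Finset.mem_filter.mpr ⟨mem_univ _, hb⟩⟩
  exact ⟨S, (Finset.mem_filter.mp hS).2, fun S' hS' =>
    hmin S' (Finset.mem_filter.mpr ⟨mem_univ _, hS'⟩)⟩

/-- Every graph which is not `r`-colourable has a core. -/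
theorem exists_core {n r : ℕ} (H : SimpleGraph (Fin n)) (hr : 2 ≤ r) (hH : ¬ H.Colorable r) :
    ∃ (d : ℕ) (L : SimpleGraph (Fin d)), Core H r L := by
  classical
  obtain ⟨p, rfl⟩ : ∃ p, r = p + 1 := ⟨r - 1, by omega⟩
  -- a candidate
  obtain ⟨S₀, hS₀⟩ := exists_minBad hH
  -- `p = 0` or more: the edges in a minimal bad set
  set J₀ : Finset (Sym2 (Fin n)) := univ.filter (fun e => e ∈ H.edgeSet ∧ ∀ x ∈ e, x ∈ S₀)
    with hJ₀
  have hJ₀m : ∀ a b, s(a, b) ∈ J₀ ↔ H.Adj a b ∧ a ∈ S₀ ∧ b ∈ S₀ := by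
    intro a b
    rw [hJ₀, Finset.mem_filter]
    simp only [Finset.mem_univ, true_and, SimpleGraph.mem_edgeSet, Sym2.mem_iff]
    constructor
    · rintro ⟨h1, h2⟩
      exact ⟨h1, h2 a (Or.inl rfl), h2 b (Or.inr rfl)⟩
    · rintro ⟨h1, h2, h3⟩
      refine ⟨h1, ?_⟩
      rintro x (rfl | rfl)
      · exact h2
      · exact h3
  have hT₀ : TwoC J₀ := MP3240C.ctc_proof n p H S₀ J₀ (by omega) hS₀ hJ₀m
  have hbad₀ : BadS (SimpleGraph.fromEdgeSet (J₀ : Set (Sym2 (Fin n)))) (p + 1) S₀ := by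
    rintro ⟨κ, hκ⟩
    refine hS₀.1 ⟨κ, fun a ha b hb hab => hκ a ha b hb ?_⟩
    rw [SimpleGraph.fromEdgeSet_adj]
    exact ⟨Finset.mem_coe.mpr ((hJ₀m a b).mpr ⟨hab, ha, hb⟩), hab.ne⟩
  have hSH₀ : SHv H (p + 1) J₀ := by
    intro v hv
    obtain ⟨e, he, hve⟩ := mem_vs.mp hv
    refine ⟨S₀, ?_, hbad₀, hS₀.2⟩
    rw [hJ₀, Finset.mem_filter] at he
    exact he.2.2 v hve
  have hne₀ : J₀.Nonempty := by
    by_contra hemp
    rw [Finset.not_nonempty_iff_eq_empty] at hemp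
    refine hS₀.1 ⟨fun _ => 0, fun a ha b hb hab => ?_⟩
    have := (hJ₀m a b).mpr ⟨hab, ha, hb⟩
    rw [hemp] at this
    exact absurd this (Finset.notMem_empty _)
  -- the largest one
  obtain ⟨J, hJ, hmax⟩ := Finset.exists_max_image (univ.filter (fun J : Finset (Sym2 (Fin n)) =>
    (∀ e ∈ J, e ∈ H.edgeSet) ∧ TwoC J ∧ SHv H (p + 1) J ∧ J.Nonempty))
    (fun J => J.card) ⟨J₀, Finset.mem_filter.mpr ⟨mem_univ _, by
      intro e he
      rw [hJ₀, Finset.mem_filter] at he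
      exact he.2.1, hT₀, hSH₀, hne₀⟩⟩
  obtain ⟨-, hJH, hJT, hJS, hJne⟩ := Finset.mem_filter.mp hJ
  -- the graph
  set f := (vs J).orderEmbOfFin rfl with hf
  have hfi : Function.Injective f := f.injective
  have hfm : ∀ a, f a ∈ vs J := fun a => Finset.orderEmbOfFin_mem _ _ a
  have hfs : ∀ x ∈ vs J, ∃ a, f a = x := by
    intro x hx
    have : x ∈ Set.range f := by
      rw [hf, Finset.range_orderEmbOfFin]
      exact hx
    exact this
  set G : SimpleGraph (Fin n) := SimpleGraph.fromEdgeSet (J : Set (Sym2 (Fin n))) with hG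
  have hGadj : ∀ x y, G.Adj x y ↔ s(x, y) ∈ J := by
    intro x y
    rw [hG, SimpleGraph.fromEdgeSet_adj]
    constructor
    · exact fun h => Finset.mem_coe.mp h.1
    · exact fun h => ⟨Finset.mem_coe.mpr h, ((SimpleGraph.mem_edgeSet H).mp (hJH _ h)).ne⟩
  set L : SimpleGraph (Fin (vs J).card) := G.comap f with hL
  have hLadj : ∀ a b, L.Adj a b ↔ s(f a, f b) ∈ J := by
    intro a b
    rw [hL, SimpleGraph.comap_adj]
    exact hGadj _ _
  have himg : img L f = J := by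
    ext e
    induction e using Sym2.ind with
    | _ x y =>
      rw [mem_img]
      constructor
      · rintro ⟨a, b, hab, rfl, rfl⟩
        exact (hLadj a b).mp hab
      · intro hxy
        obtain ⟨a, rfl⟩ := hfs x (mem_vs_left hxy)
        obtain ⟨b, rfl⟩ := hfs y (mem_vs_right hxy)
        exact ⟨a, b, (hLadj a b).mpr hxy, rfl, rfl⟩
  have hLT : TwoC (ed L) := TwoC_of_img hfi (by rw [himg]; exact hJT)
  have hnb : ∀ a, ∃ b, L.Adj a b := by
    intro a
    obtain ⟨e, he, hae⟩ := mem_vs.mp (hfm a)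
    induction e using Sym2.ind with
    | _ x y =>
      obtain ⟨b, hb⟩ := hfs x (mem_vs_left he)
      obtain ⟨c, hc⟩ := hfs y (mem_vs_right he)
      rw [Sym2.mem_iff] at hae
      rcases hae with h1 | h1
      · exact ⟨c, (hLadj a c).mpr (by rw [h1, hc]; exact he)⟩
      · exact ⟨b, (hLadj a b).mpr (by rw [h1, hb, Sym2.eq_swap]; exact he)⟩
  have hvsL : ∀ a, a ∈ vs (ed L) := by
    intro a
    obtain ⟨b, hb⟩ := hnb a
    exact mem_vs_left (mem_ed.mpr hb)
  refine ⟨(vs J).card, L, ⟨f, hfi, fun i j hij => hJH _ ((hLadj i j).mp hij)⟩, ?_, hLT, ?_, ?_⟩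
  · have hnon : Nonempty (Fin (vs J).card) := by
      obtain ⟨e, he⟩ := hJne
      induction e using Sym2.ind with
      | _ x y =>
        obtain ⟨a, -⟩ := hfs x (mem_vs_left he)
        exact ⟨a⟩
    refine { preconnected := ?_, nonempty := hnon }
    intro a b
    refine TwoC_reachable hLT L ?_ (hvsL a) (hvsL b)
    intro e he
    induction e using Sym2.ind with
    | _ x y => exact mem_ed.mp he
  · intro v
    obtain ⟨S, hvS, hS, hmin⟩ := hJS (f v) (hfm v)
    set T : Finset (Fin (vs J).card) := univ.filter (fun a => f a ∈ S) with hT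
    have hTm : ∀ a, a ∈ T ↔ f a ∈ S := by
      intro a
      rw [hT, Finset.mem_filter]
      simp
    refine ⟨T, (hTm v).mpr hvS, ?_, ?_⟩
    · rintro ⟨κ, hκ⟩
      apply hS
      refine ⟨fun x => if h : ∃ a, f a = x then κ h.choose else 0, ?_⟩
      have hval : ∀ a, (if h : ∃ a', f a' = f a then κ h.choose else 0) = κ a := by
        intro a
        have h : ∃ a', f a' = f a := ⟨a, rfl⟩
        rw [dif_pos h, hfi h.choose_spec]
      intro x hx y hy hxy
      have hxy' := (hGadj x y).mp hxy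
      obtain ⟨a, rfl⟩ := hfs x (mem_vs_left hxy')
      obtain ⟨b, rfl⟩ := hfs y (mem_vs_right hxy')
      show (if h : ∃ a', f a' = f a then κ h.choose else 0) ≠
        (if h : ∃ a', f a' = f b then κ h.choose else 0)
      rw [hval a, hval b]
      exact hκ a ((hTm a).mpr hx) b ((hTm b).mpr hy) ((hLadj a b).mpr hxy')
    · intro S' hS'
      refine le_trans ?_ (hmin S' hS')
      rw [← Finset.card_image_of_injective T hfi]
      refine Finset.card_le_card ?_
      intro x hx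
      obtain ⟨a, ha, rfl⟩ := Finset.mem_image.mp hx
      exact (hTm a).mp ha
  · intro J' hJ'H hJ'T hJ'S _ _ _
    rw [← card_img L hfi, himg]
    by_cases hne : J'.Nonempty
    · exact hmax J' (Finset.mem_filter.mpr ⟨mem_univ _, hJ'H, hJ'T, hJ'S, hne⟩)
    · rw [Finset.not_nonempty_iff_eq_empty] at hne
      rw [hne]
      simp

/-- The properties of `X'` and of the induced matching `xs t`, `ys t`. -/
structure XF {n d q : ℕ} (H : SimpleGraph (Fin n)) (L : SimpleGraph (Fin d))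
    (X' : Finset (Fin n)) (xs ys : Fin q → Fin n) : Prop where
  adj : ∀ t, H.Adj (xs t) (ys t)
  off : ∀ t, ∀ x ∈ X', x ≠ xs t ∧ x ≠ ys t ∧ ¬ H.Adj x (xs t) ∧ ¬ H.Adj x (ys t)
  ind : ∀ t t', t ≠ t' → xs t ≠ xs t' ∧ xs t ≠ ys t' ∧ ys t ≠ xs t' ∧ ys t ≠ ys t' ∧
    ¬ H.Adj (xs t) (xs t') ∧ ¬ H.Adj (xs t) (ys t') ∧ ¬ H.Adj (ys t) (xs t') ∧
    ¬ H.Adj (ys t) (ys t')
  hit : ∀ f, IsE L H f → (∃ i, f i ∈ X') ∨ ∃ t i j, L.Adj i j ∧ f i = xs t ∧ f j = ys t
  own : ∀ t, ∃ f, IsE L H f ∧ (∀ i, f i ∉ X') ∧ (∃ i j, L.Adj i j ∧ f i = xs t ∧ f j = ys t) ∧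
    ∀ f', IsE L H f' → (∃ i, f' i = xs t ∨ f' i = ys t) → img L f' = img L f
  one : ∀ t t' f, IsE L H f → (∃ i, f i = xs t ∨ f i = ys t) →
    (∃ i, f i = xs t' ∨ f i = ys t') → t = t'

/-- **The sets `X'` and `F`.** -/
theorem Core.xf {n d r : ℕ} {H : SimpleGraph (Fin n)} {L : SimpleGraph (Fin d)}
    (h : Core H r L) (hr : 2 ≤ r) {X : Finset (Fin n)} (hX : ∀ x ∈ X, ∀ y ∈ X, ¬ H.Adj x y)
    (hXm : ∀ f, IsE L H f → ∃ i, f i ∈ X) :
    ∃ (X' : Finset (Fin n)) (q : ℕ) (xs ys : Fin q → Fin n),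
      (∀ x ∈ X', ∀ y ∈ X', ¬ H.Adj x y) ∧ X'.card + 1 ≤ X.card ∧ XF H L X' xs ys := by
  classical
  have hcop := h.copies hr
  have key : ∀ {a b : Fin n} {S : Finset (Fin n)}, a = b → b ∈ S → a ∈ S := fun h1 h2 => h1 ▸ h2
  have hnb : ∀ i, ∃ j, L.Adj i j := h.nb hr
  have hvs : ∀ f : Fin d → Fin n, ∀ i, f i ∈ vs (img L f) := by
    intro f i
    obtain ⟨j, hj⟩ := hnb i
    exact mem_vs_img.mpr ⟨i, j, hj, rfl⟩
  have hvs' : ∀ f : Fin d → Fin n, ∀ x ∈ vs (img L f), ∃ i, f i = x := by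
    intro f x hx
    obtain ⟨i, -, -, hi⟩ := mem_vs_img.mp hx
    exact ⟨i, hi⟩
  have hne : (cps H L).Nonempty := by
    obtain ⟨f, hf⟩ := h.emb
    exact ⟨img L f, mem_cps.mpr ⟨f, hf, rfl⟩⟩
  obtain ⟨X', e, hi, hc, hcov, he⟩ := hcop.walk hne hX (by
    intro C hC
    obtain ⟨f, hf, rfl⟩ := mem_cps.mp hC
    obtain ⟨i, hi⟩ := hXm f hf
    exact ⟨f i, hi, hvs f i⟩)
  set U : Finset (Finset (Sym2 (Fin n))) := (cps H L).filter (fun C => ∀ x ∈ X', x ∉ vs C) with hU
  have hUm : ∀ C, C ∈ U ↔ C ∈ cps H L ∧ ∀ x ∈ X', x ∉ vs C := by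
    intro C
    rw [hU, Finset.mem_filter]
  set ε := U.equivFin with hε
  have hm : ∀ t, (ε.symm t : Finset (Sym2 (Fin n))) ∈ cps H L ∧
      ∀ x ∈ X', x ∉ vs (ε.symm t : Finset (Sym2 (Fin n))) := fun t => (hUm _).mp (ε.symm t).2
  have hee : ∀ t, _ := fun t => he (ε.symm t) (hm t).1 (hm t).2
  have hadj : ∀ t, H.Adj (e (ε.symm t)).1 (e (ε.symm t)).2 := fun t =>
    hcop.sub _ (hm t).1 _ (hee t).1
  have hxv : ∀ t, (e (ε.symm t)).1 ∈ vs (ε.symm t : Finset (Sym2 (Fin n))) := fun t =>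
    mem_vs_left (hee t).1
  have hyv : ∀ t, (e (ε.symm t)).2 ∈ vs (ε.symm t : Finset (Sym2 (Fin n))) := fun t =>
    mem_vs_right (hee t).1
  have hone : ∀ t f, IsE L H f → (∃ i, f i = (e (ε.symm t)).1 ∨ f i = (e (ε.symm t)).2) →
      img L f = (ε.symm t : Finset (Sym2 (Fin n))) := by
    intro t f hf hmeet
    by_contra hne'
    obtain ⟨h1, h2⟩ := (hee t).2.1 _ (mem_cps.mpr ⟨f, hf, rfl⟩) hne'
    obtain ⟨i, hi' | hi'⟩ := hmeet
    · exact h1 (key hi'.symm (hvs f i))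
    · exact h2 (key hi'.symm (hvs f i))
  refine ⟨X', U.card, fun t => (e (ε.symm t)).1, fun t => (e (ε.symm t)).2, hi, hc,
    ⟨hadj, ?_, ?_, ?_, ?_, ?_⟩⟩
  · intro t x hx
    refine ⟨?_, ?_, ((hee t).2.2.1 x hx).1, ((hee t).2.2.1 x hx).2⟩
    · rintro rfl
      exact (hm t).2 _ hx (hxv t)
    · rintro rfl
      exact (hm t).2 _ hx (hyv t)
  · intro t t' htt
    have hCC : (ε.symm t' : Finset (Sym2 (Fin n))) ≠ ε.symm t := by
      intro h1
      exact htt (ε.symm.injective (Subtype.ext h1)).symm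
    obtain ⟨h1, h2⟩ := (hee t).2.1 _ (hm t').1 hCC
    obtain ⟨h3, h4, h5, h6⟩ := (hee t).2.2.2 _ (hm t').1 (hm t').2 hCC
    refine ⟨?_, ?_, ?_, ?_, h3, h4, h5, h6⟩
    · intro h7
      exact h1 (key h7 (hxv t'))
    · intro h7
      exact h1 (key h7 (hyv t'))
    · intro h7
      exact h2 (key h7 (hxv t'))
    · intro h7
      exact h2 (key h7 (hyv t'))
  · intro f hf
    by_cases hmeet : ∃ i, f i ∈ X'
    · exact Or.inl hmeet
    · right
      push Not at hmeet
      have hCU : img L f ∈ U := by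
        refine (hUm _).mpr ⟨mem_cps.mpr ⟨f, hf, rfl⟩, ?_⟩
        intro x hx hxv
        obtain ⟨i, rfl⟩ := hvs' f x hxv
        exact hmeet i hx
      have hval : (ε.symm (ε ⟨img L f, hCU⟩) : Finset (Sym2 (Fin n))) = img L f := by
        rw [Equiv.symm_apply_apply]
      have h1 := (hee (ε ⟨img L f, hCU⟩)).1
      obtain ⟨i, j, hij, h2, h3⟩ : ∃ i j, L.Adj i j ∧
          f i = (e (ε.symm (ε ⟨img L f, hCU⟩))).1 ∧
          f j = (e (ε.symm (ε ⟨img L f, hCU⟩))).2 := by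
        refine mem_img.mp ?_
        have h5 : ∀ (D D' : Finset (Sym2 (Fin n))) (z : Sym2 (Fin n)), D = D' → z ∈ D → z ∈ D' :=
          fun D D' z h6 h7 => h6 ▸ h7
        exact h5 _ _ _ hval h1
      exact ⟨_, i, j, hij, h2, h3⟩
  · intro t
    obtain ⟨f, hf, hfC⟩ := mem_cps.mp (hm t).1
    refine ⟨f, hf, ?_, ?_, ?_⟩
    · intro i hiX
      apply (hm t).2 _ hiX
      rw [← hfC]
      exact hvs f i
    · have h1 := (hee t).1
      rw [← hfC] at h1
      obtain ⟨i, j, hij, h2, h3⟩ := mem_img.mp h1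
      refine ⟨i, j, hij, ?_, ?_⟩
      · rw [h2, hfC]
      · rw [h3, hfC]
    · intro f' hf' hmeet
      rw [hone t f' hf' hmeet, hfC]
  · intro t t' f hf h1 h2
    have h3 := (hone t f hf h1).symm.trans (hone t' f hf h2)
    exact ε.symm.injective (Subtype.ext h3)

end MP3240K
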