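import Pool.Agent.Lib.MP_3240be_co.H19K.Core
import Pool.Agent.Lib.MP_3240be_co.H43.G0

/-!
# MP_3240be_co: the closure lemma for blobs with several passenger sets (abstract form)

`L` is a core of `H`, the blobs are copies of `H - X' - F`, where `F` is the induced matching
`xs t`, `ys t`; the blob `b` is attached to the passenger sets `P b t` at the vertices `rx b t`
(playing `xs t`) and `ry b t` (playing `ys t`).  `loc u` is the place of the vertex `u` of a copy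
of `L`: an inner slot `(b, i)` of a blob, or a vertex `(z, w)` of a passenger set.  If every least
bad set of `L` lies in one blob and the incidence graph of the used blobs and the passenger sets
is a forest, then there is no such copy.
-/

set_option autoImplicit false

namespace MP3240K

open Finset MP3240T MP3240W
open MP3240C (BadS MinBad)

variable {n d q r : ℕ} {β ζ W : Type}

/-- The vertex `p` is at the position `i` of the blob `b` (an inner slot or a root). -/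
def AtB (P : β → Fin q → ζ) (rx ry : β → Fin q → W) (xs ys : Fin q → Fin n) (b : β)
    (p : (β × Fin n) ⊕ (ζ × W)) (i : Fin n) : Prop :=
  p = .inl (b, i) ∨ ∃ t, (p = .inr (P b t, rx b t) ∧ i = xs t) ∨
    (p = .inr (P b t, ry b t) ∧ i = ys t)

/-- `u v` is an edge in the blob `b`. -/
def InB (H : SimpleGraph (Fin n)) (P : β → Fin q → ζ) (rx ry : β → Fin q → W)
    (xs ys : Fin q → Fin n) (loc : Fin d → (β × Fin n) ⊕ (ζ × W)) (b : β) (u v : Fin d) : Prop :=
  ∃ i j, AtB P rx ry xs ys b (loc u) i ∧ AtB P rx ry xs ys b (loc v) j ∧ H.Adj i j ∧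
    (loc u = .inl (b, i) ∨ loc v = .inl (b, j))

/-- The passenger sets `Z` and `Z'` are joined by a used blob different from `b`. -/
def Lk (P : β → Fin q → ζ) (loc : Fin d → (β × Fin n) ⊕ (ζ × W)) (b : β) (Z Z' : ζ) : Prop :=
  ∃ b', b' ≠ b ∧ (∃ u i, loc u = .inl (b', i)) ∧ (∃ t, P b' t = Z) ∧ ∃ t, P b' t = Z'

/-- The places of a copy of `L`. -/
structure Blobs (H : SimpleGraph (Fin n)) (r : ℕ) (L : SimpleGraph (Fin d)) (X' : Finset (Fin n))
    (xs ys : Fin q → Fin n) (P : β → Fin q → ζ) (rx ry : β → Fin q → W)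
    (loc : Fin d → (β × Fin n) ⊕ (ζ × W)) : Prop where
  inj : Function.Injective loc
  rne : ∀ b t, rx b t ≠ ry b t
  typ : ∀ b b' t t', P b t = P b' t' → t = t'
  edge : ∀ u v, L.Adj u v → ∃ b, InB H P rx ry xs ys loc b u v
  inn : ∀ u b i, loc u = .inl (b, i) → i ∉ X' ∧ ∀ t, i ≠ xs t ∧ i ≠ ys t
  crit : ∀ u, ∃ S, u ∈ S ∧ BadS L r S ∧ (∀ S', BadS H r S' → S.card ≤ S'.card) ∧
    ∃ b, ∀ v ∈ S, ∃ i, AtB P rx ry xs ys b (loc v) i
  forest : ∀ b t t', t ≠ t' → ¬ Relation.ReflTransGen (Lk P loc b) (P b t) (P b t')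

variable {H : SimpleGraph (Fin n)} {L : SimpleGraph (Fin d)} {X' : Finset (Fin n)}
  {xs ys : Fin q → Fin n} {P : β → Fin q → ζ} {rx ry : β → Fin q → W}
  {loc : Fin d → (β × Fin n) ⊕ (ζ × W)}

theorem at_inl {b b' : β} {i j : Fin n}
    (h : AtB P rx ry xs ys b (.inl (b', j)) i) : b' = b ∧ j = i := by
  rcases h with h | ⟨t, ⟨h, -⟩ | ⟨h, -⟩⟩
  · have := Sum.inl.inj h
    exact ⟨congrArg Prod.fst this, congrArg Prod.snd this⟩
  · exact absurd h (by simp)
  · exact absurd h (by simp)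

theorem at_inr {b : β} {z : ζ} {w : W} {i : Fin n}
    (h : AtB P rx ry xs ys b (.inr (z, w)) i) :
    ∃ t, z = P b t ∧ ((w = rx b t ∧ i = xs t) ∨ (w = ry b t ∧ i = ys t)) := by
  rcases h with h | ⟨t, ⟨h, hi⟩ | ⟨h, hi⟩⟩
  · exact absurd h (by simp)
  · have := Sum.inr.inj h
    exact ⟨t, congrArg Prod.fst this, Or.inl ⟨congrArg Prod.snd this, hi⟩⟩
  · have := Sum.inr.inj h
    exact ⟨t, congrArg Prod.fst this, Or.inr ⟨congrArg Prod.snd this, hi⟩⟩

/-- The position is unique. -/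
theorem Blobs.at_uniq (hB : Blobs H r L X' xs ys P rx ry loc) {b : β}
    {p : (β × Fin n) ⊕ (ζ × W)} {i j : Fin n} (hi : AtB P rx ry xs ys b p i)
    (hj : AtB P rx ry xs ys b p j) : i = j := by
  rcases p with ⟨b', k⟩ | ⟨z, w⟩
  · rw [← (at_inl hi).2, ← (at_inl hj).2]
  · obtain ⟨t, hz, hw⟩ := at_inr hi
    obtain ⟨t', hz', hw'⟩ := at_inr hj
    have htt := hB.typ b b t t' (hz.symm.trans hz')
    subst htt
    rcases hw with ⟨h1, h2⟩ | ⟨h1, h2⟩ <;> rcases hw' with ⟨h3, h4⟩ | ⟨h3, h4⟩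
    · rw [h2, h4]
    · exact absurd (h1.symm.trans h3) (hB.rne b t)
    · exact absurd (h3.symm.trans h1) (hB.rne b t)
    · rw [h2, h4]

/-- Different vertices have different positions. -/
theorem Blobs.at_inj (hB : Blobs H r L X' xs ys P rx ry loc) (hF : XF H L X' xs ys) {b : β}
    {u v : Fin d} {i : Fin n} (hu : AtB P rx ry xs ys b (loc u) i)
    (hv : AtB P rx ry xs ys b (loc v) i) : u = v := by
  apply hB.inj
  rcases hu with h1 | ⟨t, h1⟩ <;> rcases hv with h2 | ⟨t', h2⟩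
  · rw [h1, h2]
  · exfalso
    have h3 := (hB.inn u b i h1).2 t'
    rcases h2 with ⟨-, h4⟩ | ⟨-, h4⟩
    · exact h3.1 h4
    · exact h3.2 h4
  · exfalso
    have h3 := (hB.inn v b i h2).2 t
    rcases h1 with ⟨-, h4⟩ | ⟨-, h4⟩
    · exact h3.1 h4
    · exact h3.2 h4
  · by_cases htt : t = t'
    · subst htt
      rcases h1 with ⟨h3, h4⟩ | ⟨h3, h4⟩ <;> rcases h2 with ⟨h5, h6⟩ | ⟨h5, h6⟩
      · rw [h3, h5]
      · exact absurd (h4.symm.trans h6) (hF.adj t).ne
      · exact absurd (h6.symm.trans h4) (hF.adj t).ne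
      · rw [h3, h5]
    · exfalso
      obtain ⟨h7, h8, h9, h10, -⟩ := hF.ind t t' htt
      rcases h1 with ⟨-, h4⟩ | ⟨-, h4⟩ <;> rcases h2 with ⟨-, h6⟩ | ⟨-, h6⟩
      · exact h7 (h4.symm.trans h6)
      · exact h8 (h4.symm.trans h6)
      · exact h9 (h4.symm.trans h6)
      · exact h10 (h4.symm.trans h6)

theorem InB.symm {b : β} {u v : Fin d} (h : InB H P rx ry xs ys loc b u v) :
    InB H P rx ry xs ys loc b v u := by
  obtain ⟨i, j, h1, h2, h3, h4⟩ := h
  exact ⟨j, i, h2, h1, h3.symm, h4.symm⟩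

/-- The edges of `L` in the blob `b`. -/
noncomputable def KB (H : SimpleGraph (Fin n)) (L : SimpleGraph (Fin d)) (P : β → Fin q → ζ)
    (rx ry : β → Fin q → W) (xs ys : Fin q → Fin n) (loc : Fin d → (β × Fin n) ⊕ (ζ × W))
    (b : β) : Finset (Sym2 (Fin d)) := by
  classical exact (ed L).filter (fun e => ∃ u v, e = s(u, v) ∧ InB H P rx ry xs ys loc b u v)

theorem mem_KB {b : β} {u v : Fin d} : s(u, v) ∈ KB H L P rx ry xs ys loc b ↔
    L.Adj u v ∧ InB H P rx ry xs ys loc b u v := by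
  classical
  unfold KB
  rw [Finset.mem_filter, mem_ed]
  constructor
  · rintro ⟨h1, a, c, h2, h3⟩
    refine ⟨h1, ?_⟩
    rw [Sym2.eq_iff] at h2
    rcases h2 with ⟨rfl, rfl⟩ | ⟨rfl, rfl⟩
    · exact h3
    · exact h3.symm
  · rintro ⟨h1, h2⟩
    exact ⟨h1, u, v, rfl, h2⟩

theorem KB_sub {b : β} {e : Sym2 (Fin d)} (he : e ∈ KB H L P rx ry xs ys loc b) : e ∈ ed L := by
  classical
  unfold KB at he
  exact (Finset.mem_filter.mp he).1

theorem KB_at {b : β} {e : Sym2 (Fin d)} (he : e ∈ KB H L P rx ry xs ys loc b) {u : Fin d}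
    (hu : u ∈ e) : ∃ i, AtB P rx ry xs ys b (loc u) i := by
  induction e using Sym2.ind with
  | _ a c =>
    obtain ⟨-, i, j, h1, h2, -, -⟩ := mem_KB.mp he
    rw [Sym2.mem_iff] at hu
    rcases hu with rfl | rfl
    · exact ⟨i, h1⟩
    · exact ⟨j, h2⟩

theorem KB_used {b : β} {e : Sym2 (Fin d)} (he : e ∈ KB H L P rx ry xs ys loc b) :
    ∃ u ∈ e, ∃ i, loc u = .inl (b, i) := by
  induction e using Sym2.ind with
  | _ a c =>
    obtain ⟨-, i, j, -, -, -, h4⟩ := mem_KB.mp he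
    rcases h4 with h4 | h4
    · exact ⟨a, Sym2.mem_mk_left _ _, i, h4⟩
    · exact ⟨c, Sym2.mem_mk_right _ _, j, h4⟩

/-- An inner vertex determines the blob of its edges. -/
theorem KB_inl {b b' : β} {e : Sym2 (Fin d)} (he : e ∈ KB H L P rx ry xs ys loc b) {u : Fin d}
    (hu : u ∈ e) {i : Fin n} (hi : loc u = .inl (b', i)) : b' = b := by
  obtain ⟨j, hj⟩ := KB_at he hu
  rw [hi] at hj
  exact (at_inl hj).1

theorem KB_uniq {b b' : β} {e : Sym2 (Fin d)} (he : e ∈ KB H L P rx ry xs ys loc b)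
    (he' : e ∈ KB H L P rx ry xs ys loc b') : b = b' := by
  obtain ⟨u, hu, i, hi⟩ := KB_used he
  exact KB_inl he' hu hi

theorem Blobs.KB_cov (hB : Blobs H r L X' xs ys P rx ry loc) {e : Sym2 (Fin d)}
    (he : e ∈ ed L) : ∃ b, e ∈ KB H L P rx ry xs ys loc b := by
  induction e using Sym2.ind with
  | _ u v =>
    have huv := mem_ed.mp he
    obtain ⟨b, hb⟩ := hB.edge u v huv
    exact ⟨b, mem_KB.mpr ⟨huv, hb⟩⟩

theorem Lk.symm {b : β} {Z Z' : ζ} (h : Lk P loc b Z Z') : Lk P loc b Z' Z := by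
  obtain ⟨b', h1, h2, h3, h4⟩ := h
  exact ⟨b', h1, h2, h4, h3⟩

theorem rb_symm {b : β} {Z Z' : ζ} (h : Relation.ReflTransGen (Lk P loc b) Z Z') :
    Relation.ReflTransGen (Lk P loc b) Z' Z := by
  induction h with
  | refl => exact Relation.ReflTransGen.refl
  | tail _ h2 ih => exact Relation.ReflTransGen.head h2.symm ih

/-- A step inside one used blob. -/
theorem rb_step {b b' : β} (hne : b' ≠ b) {e : Sym2 (Fin d)}
    (he : e ∈ KB H L P rx ry xs ys loc b') (t t' : Fin q) :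
    Relation.ReflTransGen (Lk P loc b) (P b' t) (P b' t') := by
  obtain ⟨u, -, i, hi⟩ := KB_used he
  exact Relation.ReflTransGen.single ⟨b', hne, ⟨u, i, hi⟩, ⟨t, rfl⟩, ⟨t', rfl⟩⟩

/-- The edges of `L` behind the passenger set `P b t`. -/
noncomputable def SD (H : SimpleGraph (Fin n)) (L : SimpleGraph (Fin d)) (P : β → Fin q → ζ)
    (rx ry : β → Fin q → W) (xs ys : Fin q → Fin n) (loc : Fin d → (β × Fin n) ⊕ (ζ × W))
    (b : β) (t : Fin q) : Finset (Sym2 (Fin d)) := by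
  classical exact (ed L).filter (fun e => ∃ b', b' ≠ b ∧ e ∈ KB H L P rx ry xs ys loc b' ∧
    ∃ t', Relation.ReflTransGen (Lk P loc b) (P b t) (P b' t'))

theorem mem_SD {b : β} {t : Fin q} {e : Sym2 (Fin d)} : e ∈ SD H L P rx ry xs ys loc b t ↔
    ∃ b', b' ≠ b ∧ e ∈ KB H L P rx ry xs ys loc b' ∧
      ∃ t', Relation.ReflTransGen (Lk P loc b) (P b t) (P b' t') := by
  classical
  unfold SD
  rw [Finset.mem_filter]
  constructor
  · exact fun h => h.2
  · intro h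
    obtain ⟨b', h1, h2, h3⟩ := h
    exact ⟨KB_sub h2, b', h1, h2, h3⟩

theorem SD_sub {b : β} {t : Fin q} {e : Sym2 (Fin d)} (he : e ∈ SD H L P rx ry xs ys loc b t) :
    e ∈ ed L := by
  obtain ⟨b', -, h2, -⟩ := mem_SD.mp he
  exact KB_sub h2

theorem SD_KB {b : β} {t : Fin q} {e : Sym2 (Fin d)} (he : e ∈ SD H L P rx ry xs ys loc b t)
    (he' : e ∈ KB H L P rx ry xs ys loc b) : False := by
  obtain ⟨b', h1, h2, -⟩ := mem_SD.mp he
  exact h1 (KB_uniq h2 he')

/-- If `u` is on an edge behind `P b t`, and at a passenger vertex of `Z`, then `Z` is connected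
with `P b t`. -/
theorem SD_conn {b : β} {t : Fin q} {e : Sym2 (Fin d)} (he : e ∈ SD H L P rx ry xs ys loc b t)
    {u : Fin d} (hu : u ∈ e) {z : ζ} {w : W} (hz : loc u = .inr (z, w)) :
    Relation.ReflTransGen (Lk P loc b) (P b t) z := by
  obtain ⟨b', h1, h2, t', h3⟩ := mem_SD.mp he
  obtain ⟨i, hi⟩ := KB_at h2 hu
  rw [hz] at hi
  obtain ⟨t'', hz', -⟩ := at_inr hi
  rw [hz']
  exact h3.trans (rb_step h1 h2 t' t'')

/-- A common vertex of a side and the blob is a root. -/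
theorem Blobs.SD_root (hB : Blobs H r L X' xs ys P rx ry loc) {b : β} {t : Fin q}
    {e e' : Sym2 (Fin d)} (he : e ∈ SD H L P rx ry xs ys loc b t)
    (he' : e' ∈ KB H L P rx ry xs ys loc b) {u : Fin d} (hu : u ∈ e) (hu' : u ∈ e') :
    loc u = .inr (P b t, rx b t) ∨ loc u = .inr (P b t, ry b t) := by
  obtain ⟨i, hi⟩ := KB_at he' hu'
  rcases hl : loc u with ⟨b1, j⟩ | ⟨z, w⟩
  · exfalso
    obtain ⟨b', h1, h2, -⟩ := mem_SD.mp he
    rw [hl] at hi
    exact h1 ((KB_inl h2 hu hl).symm.trans (at_inl hi).1)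
  · rw [hl] at hi
    obtain ⟨t', hz, hw⟩ := at_inr hi
    have hr := SD_conn he hu hl
    rw [hz] at hr
    have htt : t = t' := by
      by_contra hne
      exact hB.forest b t t' hne hr
    subst htt
    rw [hz]
    rcases hw with ⟨hw, -⟩ | ⟨hw, -⟩
    · exact Or.inl (by rw [hw])
    · exact Or.inr (by rw [hw])

/-- Different sides have no common vertex. -/
theorem Blobs.SD_disj (hB : Blobs H r L X' xs ys P rx ry loc) {b : β} {t t' : Fin q}
    {e e' : Sym2 (Fin d)} (he : e ∈ SD H L P rx ry xs ys loc b t)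
    (he' : e' ∈ SD H L P rx ry xs ys loc b t') {u : Fin d} (hu : u ∈ e) (hu' : u ∈ e') :
    t = t' := by
  by_contra hne
  apply hB.forest b t t' hne
  rcases hl : loc u with ⟨b1, j⟩ | ⟨z, w⟩
  · obtain ⟨b2, h1, h2, t2, h3⟩ := mem_SD.mp he
    obtain ⟨b3, h4, h5, t3, h6⟩ := mem_SD.mp he'
    have h7 := KB_inl h2 hu hl
    have h8 := KB_inl h5 hu' hl
    subst h7
    subst h8
    exact (h3.trans (rb_step h1 h2 t2 t3)).trans (rb_symm h6)
  · exact (SD_conn he hu hl).trans (rb_symm (SD_conn he' hu' hl))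

/-- The edges are in the blob or in a side. -/
theorem Blobs.cov (hB : Blobs H r L X' xs ys P rx ry loc) (hT : TwoC (ed L)) {b : β}
    (hK : (KB H L P rx ry xs ys loc b).Nonempty) {e : Sym2 (Fin d)} (he : e ∈ ed L) :
    e ∈ KB H L P rx ry xs ys loc b ∨ ∃ t, e ∈ SD H L P rx ry xs ys loc b t := by
  classical
  by_contra hno
  set A := (ed L).filter (fun e => e ∈ KB H L P rx ry xs ys loc b ∨
    ∃ t, e ∈ SD H L P rx ry xs ys loc b t) with hA
  set A' := (ed L).filter (fun e => ¬ (e ∈ KB H L P rx ry xs ys loc b ∨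
    ∃ t, e ∈ SD H L P rx ry xs ys loc b t)) with hA'
  obtain ⟨e0, he0⟩ := hK
  obtain ⟨u, -, -, ⟨⟨e1, he1, hu1⟩, ⟨e2, he2, hu2⟩⟩, -⟩ := hT A A'
    ⟨e0, Finset.mem_filter.mpr ⟨KB_sub he0, Or.inl he0⟩⟩
    ⟨e, Finset.mem_filter.mpr ⟨he, hno⟩⟩
    (by
      rw [Finset.disjoint_left]
      intro x hx hx'
      exact (Finset.mem_filter.mp hx').2 (Finset.mem_filter.mp hx).2)
    (by
      intro x
      rw [hA, hA', Finset.mem_filter, Finset.mem_filter]
      tauto)
  obtain ⟨he1L, he1c⟩ := Finset.mem_filter.mp he1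
  obtain ⟨he2L, he2c⟩ := Finset.mem_filter.mp he2
  apply he2c
  obtain ⟨b2, hb2⟩ := hB.KB_cov he2L
  by_cases hbb : b2 = b
  · rw [hbb] at hb2
    exact Or.inl hb2
  · right
    rcases hl : loc u with ⟨b1, j⟩ | ⟨z, w⟩
    · have h1 := KB_inl hb2 hu2 hl
      rcases he1c with h2 | ⟨t, h2⟩
      · exact absurd (h1.symm.trans (KB_inl h2 hu1 hl)) hbb
      · obtain ⟨b3, h3, h4, h5⟩ := mem_SD.mp h2
        have h6 := KB_inl h4 hu1 hl
        rw [← h6, h1] at h5
        exact ⟨t, mem_SD.mpr ⟨b2, hbb, hb2, h5⟩⟩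
    · obtain ⟨i2, hi2⟩ := KB_at hb2 hu2
      rw [hl] at hi2
      obtain ⟨t2, hz2, -⟩ := at_inr hi2
      rcases he1c with h2 | ⟨t, h2⟩
      · obtain ⟨i1, hi1⟩ := KB_at h2 hu1
        rw [hl] at hi1
        obtain ⟨t1, hz1, -⟩ := at_inr hi1
        refine ⟨t1, mem_SD.mpr ⟨b2, hbb, hb2, t2, ?_⟩⟩
        rw [← hz1, ← hz2]
      · refine ⟨t, mem_SD.mpr ⟨b2, hbb, hb2, t2, ?_⟩⟩
        rw [← hz2]
        exact SD_conn h2 hu1 hl

/-- A nonempty side is attached at both roots. -/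
theorem Blobs.roots (hB : Blobs H r L X' xs ys P rx ry loc) (hT : TwoC (ed L)) {b : β}
    (hK : (KB H L P rx ry xs ys loc b).Nonempty) {t : Fin q}
    (hS : (SD H L P rx ry xs ys loc b t).Nonempty) :
    ∃ u v, loc u = .inr (P b t, rx b t) ∧ loc v = .inr (P b t, ry b t) ∧
      u ∈ vs (KB H L P rx ry xs ys loc b) ∧ v ∈ vs (KB H L P rx ry xs ys loc b) := by
  classical
  obtain ⟨e0, he0⟩ := hK
  obtain ⟨u, v, huv, hu, hv⟩ := hT (SD H L P rx ry xs ys loc b t)
    ((ed L).filter (fun e => e ∉ SD H L P rx ry xs ys loc b t)) hS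
    ⟨e0, Finset.mem_filter.mpr ⟨KB_sub he0, fun h => SD_KB h he0⟩⟩
    (by
      rw [Finset.disjoint_left]
      intro x hx hx'
      exact (Finset.mem_filter.mp hx').2 hx)
    (by
      intro x
      rw [Finset.mem_filter]
      constructor
      · intro hx
        by_cases h : x ∈ SD H L P rx ry xs ys loc b t
        · exact Or.inl h
        · exact Or.inr ⟨hx, h⟩
      · rintro (h | h)
        · exact SD_sub h
        · exact h.1)
  have key : ∀ w, Shares (SD H L P rx ry xs ys loc b t)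
      ((ed L).filter (fun e => e ∉ SD H L P rx ry xs ys loc b t)) w →
      w ∈ vs (KB H L P rx ry xs ys loc b) ∧
      (loc w = .inr (P b t, rx b t) ∨ loc w = .inr (P b t, ry b t)) := by
    rintro w ⟨⟨e1, he1, hw1⟩, ⟨e2, he2, hw2⟩⟩
    obtain ⟨h2L, h2n⟩ := Finset.mem_filter.mp he2
    rcases hB.cov hT ⟨e0, he0⟩ h2L with h | ⟨t', h⟩
    · exact ⟨mem_vs.mpr ⟨e2, h, hw2⟩, hB.SD_root he1 h hw1 hw2⟩
    · exfalso
      have := hB.SD_disj he1 h hw1 hw2
      rw [← this] at h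
      exact h2n h
  obtain ⟨hu1, hu2⟩ := key u hu
  obtain ⟨hv1, hv2⟩ := key v hv
  rcases hu2 with hu2 | hu2 <;> rcases hv2 with hv2 | hv2
  · exact absurd (hB.inj (hu2.trans hv2.symm)) huv
  · exact ⟨u, v, hu2, hv2, hu1, hv1⟩
  · exact ⟨v, u, hv2, hu2, hv1, hu1⟩
  · exact absurd (hB.inj (hu2.trans hv2.symm)) huv

/-- The position function of the blob `b`. -/
noncomputable def pos (P : β → Fin q → ζ) (rx ry : β → Fin q → W) (xs ys : Fin q → Fin n)
    (loc : Fin d → (β × Fin n) ⊕ (ζ × W)) (g : Fin d → Fin n) (b : β) (u : Fin d) : Fin n := by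
  classical exact if h : ∃ i, AtB P rx ry xs ys b (loc u) i then h.choose else g u

theorem Blobs.pos_eq (hB : Blobs H r L X' xs ys P rx ry loc) (g : Fin d → Fin n) {b : β}
    {u : Fin d} {i : Fin n} (hi : AtB P rx ry xs ys b (loc u) i) :
    pos P rx ry xs ys loc g b u = i := by
  classical
  have h : ∃ i, AtB P rx ry xs ys b (loc u) i := ⟨i, hi⟩
  unfold pos
  rw [dif_pos h]
  exact hB.at_uniq h.choose_spec hi

/-- The sides which are not empty. -/
noncomputable def TT (H : SimpleGraph (Fin n)) (L : SimpleGraph (Fin d)) (P : β → Fin q → ζ)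
    (rx ry : β → Fin q → W) (xs ys : Fin q → Fin n) (loc : Fin d → (β × Fin n) ⊕ (ζ × W))
    (b : β) : Finset (Fin q) := by
  classical exact univ.filter (fun t => (SD H L P rx ry xs ys loc b t).Nonempty)

theorem mem_TT {b : β} {t : Fin q} : t ∈ TT H L P rx ry xs ys loc b ↔
    (SD H L P rx ry xs ys loc b t).Nonempty := by
  classical
  simp [TT]

/-- The image of the part of `L` in the blob, with the virtual edges. -/
noncomputable def JB (H : SimpleGraph (Fin n)) (L : SimpleGraph (Fin d)) (P : β → Fin q → ζ)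
    (rx ry : β → Fin q → W) (xs ys : Fin q → Fin n) (loc : Fin d → (β × Fin n) ⊕ (ζ × W))
    (g : Fin d → Fin n) (b : β) : Finset (Sym2 (Fin n)) := by
  classical exact (KB H L P rx ry xs ys loc b).image (Sym2.map (pos P rx ry xs ys loc g b)) ∪
    (TT H L P rx ry xs ys loc b).image (fun t => s(xs t, ys t))

theorem mem_JB {g : Fin d → Fin n} {b : β} {e : Sym2 (Fin n)} :
    e ∈ JB H L P rx ry xs ys loc g b ↔
      (∃ e' ∈ KB H L P rx ry xs ys loc b, Sym2.map (pos P rx ry xs ys loc g b) e' = e) ∨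
      ∃ t ∈ TT H L P rx ry xs ys loc b, s(xs t, ys t) = e := by
  classical
  unfold JB
  rw [Finset.mem_union, Finset.mem_image, Finset.mem_image]

/-- The part of `L` in the blob with the virtual edges is 2-connected. -/
theorem Blobs.JB_two (hB : Blobs H r L X' xs ys P rx ry loc) (hF : XF H L X' xs ys)
    (hT : TwoC (ed L)) (g : Fin d → Fin n) {b : β}
    (hK : (KB H L P rx ry xs ys loc b).Nonempty) : TwoC (JB H L P rx ry xs ys loc g b) := by
  classical
  intro A A' hA hA' hd hp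
  -- the lift of a part
  have lift : ∀ D : Finset (Sym2 (Fin n)), ∃ B : Finset (Sym2 (Fin d)), ∀ e, e ∈ B ↔
      (e ∈ KB H L P rx ry xs ys loc b ∧ Sym2.map (pos P rx ry xs ys loc g b) e ∈ D) ∨
      ∃ t, e ∈ SD H L P rx ry xs ys loc b t ∧ s(xs t, ys t) ∈ D := by
    intro D
    refine ⟨(ed L).filter (fun e =>
      (e ∈ KB H L P rx ry xs ys loc b ∧ Sym2.map (pos P rx ry xs ys loc g b) e ∈ D) ∨
      ∃ t, e ∈ SD H L P rx ry xs ys loc b t ∧ s(xs t, ys t) ∈ D), ?_⟩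
    intro e
    rw [Finset.mem_filter]
    constructor
    · exact fun h => h.2
    · intro h
      refine ⟨?_, h⟩
      rcases h with ⟨h, -⟩ | ⟨t, h, -⟩
      · exact KB_sub h
      · exact SD_sub h
  obtain ⟨B, hBm⟩ := lift A
  obtain ⟨B', hBm'⟩ := lift A'
  have hne : ∀ (D : Finset (Sym2 (Fin n))) (C : Finset (Sym2 (Fin d))), D.Nonempty →
      (∀ e ∈ D, e ∈ JB H L P rx ry xs ys loc g b) → (∀ e, e ∈ C ↔
      (e ∈ KB H L P rx ry xs ys loc b ∧ Sym2.map (pos P rx ry xs ys loc g b) e ∈ D) ∨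
      ∃ t, e ∈ SD H L P rx ry xs ys loc b t ∧ s(xs t, ys t) ∈ D) → C.Nonempty := by
    intro D C hD hDJ hC
    obtain ⟨a, ha⟩ := hD
    rcases mem_JB.mp (hDJ a ha) with ⟨e', he', rfl⟩ | ⟨t, ht, rfl⟩
    · exact ⟨e', (hC e').mpr (Or.inl ⟨he', ha⟩)⟩
    · obtain ⟨e', he'⟩ := mem_TT.mp ht
      exact ⟨e', (hC e').mpr (Or.inr ⟨t, he', ha⟩)⟩
  obtain ⟨u, v, huv, hu, hv⟩ := hT B B' (hne A B hA (fun e he => (hp e).mpr (Or.inl he)) hBm)
    (hne A' B' hA' (fun e he => (hp e).mpr (Or.inr he)) hBm')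
    (by
      rw [Finset.disjoint_left]
      intro e he he'
      rcases (hBm e).mp he with ⟨h1, h2⟩ | ⟨t, h1, h2⟩ <;>
        rcases (hBm' e).mp he' with ⟨h3, h4⟩ | ⟨t', h3, h4⟩
      · exact Finset.disjoint_left.mp hd h2 h4
      · exact SD_KB h3 h1
      · exact SD_KB h1 h3
      · obtain ⟨u, hu⟩ : ∃ u, u ∈ e := by
          induction e using Sym2.ind with
          | _ x y => exact ⟨x, Sym2.mem_mk_left _ _⟩
        have := hB.SD_disj h1 h3 hu hu
        rw [← this] at h4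
        exact Finset.disjoint_left.mp hd h2 h4)
    (by
      intro e
      constructor
      · intro he
        rcases hB.cov hT hK he with h | ⟨t, h⟩
        · rcases (hp _).mp (mem_JB.mpr (Or.inl ⟨e, h, rfl⟩)) with h1 | h1
          · exact Or.inl ((hBm e).mpr (Or.inl ⟨h, h1⟩))
          · exact Or.inr ((hBm' e).mpr (Or.inl ⟨h, h1⟩))
        · rcases (hp _).mp (mem_JB.mpr (Or.inr ⟨t, mem_TT.mpr ⟨e, h⟩, rfl⟩)) with h1 | h1
          · exact Or.inl ((hBm e).mpr (Or.inr ⟨t, h, h1⟩))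
          · exact Or.inr ((hBm' e).mpr (Or.inr ⟨t, h, h1⟩))
      · rintro (h | h)
        · rcases (hBm e).mp h with ⟨h1, -⟩ | ⟨t, h1, -⟩
          · exact KB_sub h1
          · exact SD_sub h1
        · rcases (hBm' e).mp h with ⟨h1, -⟩ | ⟨t, h1, -⟩
          · exact KB_sub h1
          · exact SD_sub h1)
  have key : ∀ w, Shares B B' w → ∃ i, AtB P rx ry xs ys b (loc w) i ∧ Shares A A' i := by
    rintro w ⟨⟨e1, he1, hw1⟩, ⟨e2, he2, hw2⟩⟩
    -- positions
    have root : ∀ t, loc w = .inr (P b t, rx b t) ∨ loc w = .inr (P b t, ry b t) →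
        ∀ i, AtB P rx ry xs ys b (loc w) i → i ∈ s(xs t, ys t) := by
      intro t h i hi
      rcases h with h | h
      · have : AtB P rx ry xs ys b (loc w) (xs t) := Or.inr ⟨t, Or.inl ⟨h, rfl⟩⟩
        rw [hB.at_uniq hi this]
        exact Sym2.mem_mk_left _ _
      · have : AtB P rx ry xs ys b (loc w) (ys t) := Or.inr ⟨t, Or.inr ⟨h, rfl⟩⟩
        rw [hB.at_uniq hi this]
        exact Sym2.mem_mk_right _ _
    have inK : ∀ e, e ∈ KB H L P rx ry xs ys loc b → w ∈ e → ∀ i,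
        AtB P rx ry xs ys b (loc w) i → i ∈ Sym2.map (pos P rx ry xs ys loc g b) e := by
      intro e he hw i hi
      exact Sym2.mem_map.mpr ⟨w, hw, hB.pos_eq g hi⟩
    rcases (hBm e1).mp he1 with ⟨h1, h2⟩ | ⟨t, h1, h2⟩ <;>
      rcases (hBm' e2).mp he2 with ⟨h3, h4⟩ | ⟨t', h3, h4⟩
    · obtain ⟨i, hi⟩ := KB_at h1 hw1
      exact ⟨i, hi, ⟨_, h2, inK e1 h1 hw1 i hi⟩, ⟨_, h4, inK e2 h3 hw2 i hi⟩⟩
    · obtain ⟨i, hi⟩ := KB_at h1 hw1
      exact ⟨i, hi, ⟨_, h2, inK e1 h1 hw1 i hi⟩,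
        ⟨_, h4, root t' (hB.SD_root h3 h1 hw2 hw1) i hi⟩⟩
    · obtain ⟨i, hi⟩ := KB_at h3 hw2
      exact ⟨i, hi, ⟨_, h2, root t (hB.SD_root h1 h3 hw1 hw2) i hi⟩,
        ⟨_, h4, inK e2 h3 hw2 i hi⟩⟩
    · exfalso
      have := hB.SD_disj h1 h3 hw1 hw2
      rw [← this] at h4
      exact Finset.disjoint_left.mp hd h2 h4
  obtain ⟨i, hi, hiS⟩ := key u hu
  obtain ⟨j, hj, hjS⟩ := key v hv
  refine ⟨i, j, ?_, hiS, hjS⟩
  rintro rfl
  exact huv (hB.at_inj hF hi hj)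

end MP3240K
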