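import Pool.Agent.Lib.MP_3240be_co.H19K.Clo

/-!
# MP_3240be_co: the closure lemma for blobs with several passenger sets, second part
-/

set_option autoImplicit false

namespace MP3240K

open Finset MP3240T MP3240W
open MP3240C (BadS MinBad)

variable {n d q r : ℕ} {β ζ W : Type}
variable {H : SimpleGraph (Fin n)} {L : SimpleGraph (Fin d)} {X' : Finset (Fin n)}
  {xs ys : Fin q → Fin n} {P : β → Fin q → ζ} {rx ry : β → Fin q → W}
  {loc : Fin d → (β × Fin n) ⊕ (ζ × W)}

/-- A least bad set in the blob is mapped to a bad set. -/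
theorem Blobs.heavy_K (hB : Blobs H r L X' xs ys P rx ry loc) (hF : XF H L X' xs ys)
    (g : Fin d → Fin n) {b : β} {J : Finset (Sym2 (Fin n))}
    (hJ : JB H L P rx ry xs ys loc g b ⊆ J) {S : Finset (Fin d)} (hS : BadS L r S)
    (hmin : ∀ S', BadS H r S' → S.card ≤ S'.card)
    (hat : ∀ v ∈ S, ∃ i, AtB P rx ry xs ys b (loc v) i) {u : Fin d} (hu : u ∈ S) :
    ∃ S', pos P rx ry xs ys loc g b u ∈ S' ∧
      BadS (SimpleGraph.fromEdgeSet (J : Set (Sym2 (Fin n)))) r S' ∧
      ∀ S'', BadS H r S'' → S'.card ≤ S''.card := by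
  classical
  refine ⟨S.image (pos P rx ry xs ys loc g b), Finset.mem_image_of_mem _ hu, ?_,
    fun S'' hS'' => Finset.card_image_le.trans (hmin S'' hS'')⟩
  refine BadS.image ?_ hS
  intro i hi j hj hij
  obtain ⟨b2, hb2⟩ := hB.KB_cov (mem_ed.mpr hij)
  have hbb : b2 = b := by
    obtain ⟨w, hw, k, hk⟩ := KB_used hb2
    have hwS : w ∈ S := by
      rw [Sym2.mem_iff] at hw
      rcases hw with rfl | rfl
      · exact hi
      · exact hj
    obtain ⟨k', hk'⟩ := hat w hwS
    rw [hk] at hk'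
    exact (at_inl hk').1
  rw [hbb] at hb2
  rw [SimpleGraph.fromEdgeSet_adj]
  refine ⟨Finset.mem_coe.mpr (hJ (mem_JB.mpr (Or.inl ⟨s(i, j), hb2, by rw [Sym2.map_mk]⟩))), ?_⟩
  intro heq
  obtain ⟨a, ha⟩ := hat i hi
  obtain ⟨c, hc⟩ := hat j hj
  rw [hB.pos_eq g ha, hB.pos_eq g hc] at heq
  rw [← heq] at hc
  exact hij.ne (hB.at_inj hF ha hc)

/-- The union of the image of the blob part and the copies at the nonempty sides is one copy. -/
theorem Blobs.one_copy (hC : Core H r L) (hr : 2 ≤ r) (hB : Blobs H r L X' xs ys P rx ry loc)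
    (hF : XF H L X' xs ys) (g : Fin d → Fin n) {G : Fin q → Fin d → Fin n}
    (hG : ∀ t, IsE L H (G t)) (hGp : ∀ t, ∃ i j, L.Adj i j ∧ G t i = xs t ∧ G t j = ys t)
    {b : β} (hK : (KB H L P rx ry xs ys loc b).Nonempty) {t : Fin q}
    (ht : t ∈ TT H L P rx ry xs ys loc b) :
    JB H L P rx ry xs ys loc g b ⊆ img L (G t) ∧
      ∀ t' ∈ TT H L P rx ry xs ys loc b, t' = t := by
  classical
  set J := JB H L P rx ry xs ys loc g b ∪
    (TT H L P rx ry xs ys loc b).biUnion (fun t => img L (G t)) with hJ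
  have hxv : ∀ t, xs t ∈ vs (img L (G t)) ∧ ys t ∈ vs (img L (G t)) := by
    intro t
    obtain ⟨i, j, hij, h1, h2⟩ := hGp t
    exact ⟨mem_vs_img.mpr ⟨i, j, hij, h1⟩, mem_vs_img.mpr ⟨j, i, hij.symm, h2⟩⟩
  have hJB : JB H L P rx ry xs ys loc g b ⊆ J := Finset.subset_union_left
  have hJG : ∀ t ∈ TT H L P rx ry xs ys loc b, img L (G t) ⊆ J := fun t ht =>
    (Finset.subset_biUnion_of_mem (fun t => img L (G t)) ht).trans Finset.subset_union_right
  have hmemJ : ∀ e ∈ J, e ∈ JB H L P rx ry xs ys loc g b ∨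
      ∃ t ∈ TT H L P rx ry xs ys loc b, e ∈ img L (G t) := by
    intro e he
    rcases Finset.mem_union.mp he with h | h
    · exact Or.inl h
    · exact Or.inr (Finset.mem_biUnion.mp h)
  -- edges of `H`
  have hJH : ∀ e ∈ J, e ∈ H.edgeSet := by
    intro e he
    rcases hmemJ e he with h | ⟨t, ht, h⟩
    · rcases mem_JB.mp h with ⟨e', he', rfl⟩ | ⟨t, ht, rfl⟩
      · induction e' using Sym2.ind with
        | _ u v =>
          obtain ⟨-, i, j, h1, h2, h3, -⟩ := mem_KB.mp he'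
          rw [Sym2.map_mk, SimpleGraph.mem_edgeSet]
          show H.Adj (pos P rx ry xs ys loc g b u) (pos P rx ry xs ys loc g b v)
          rw [hB.pos_eq g h1, hB.pos_eq g h2]
          exact h3
      · exact hF.adj t
    · exact img_sub (hG t) e h
  -- 2-connected
  have hJT' : ∀ T' : Finset (Fin q), T' ⊆ TT H L P rx ry xs ys loc b →
      TwoC (JB H L P rx ry xs ys loc g b ∪ T'.biUnion (fun t => img L (G t))) := by
    intro T'
    induction T' using Finset.induction_on with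
    | empty =>
      intro _
      rw [Finset.biUnion_empty, Finset.union_empty]
      exact hB.JB_two hF hC.two g hK
    | insert a T' ha ih =>
      intro hsub
      have h1 := ih ((Finset.subset_insert a T').trans hsub)
      have haT := hsub (Finset.mem_insert_self a T')
      have h2 : s(xs a, ys a) ∈ JB H L P rx ry xs ys loc g b ∪
          T'.biUnion (fun t => img L (G t)) :=
        Finset.mem_union_left _ (mem_JB.mpr (Or.inr ⟨a, haT, rfl⟩))
      have h3 := TwoC_union h1 (TwoC_img (hG a).1 hC.two) (hF.adj a).ne (mem_vs_left h2)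
        (mem_vs_right h2) (hxv a).1 (hxv a).2
      rw [Finset.biUnion_insert, Finset.union_comm (img L (G a)), ← Finset.union_assoc]
      exact h3
  have hJT : TwoC J := hJT' _ (Finset.Subset.refl _)
  -- heavy
  have hJS : SHv H r J := by
    intro w hw
    obtain ⟨e, he, hwe⟩ := mem_vs.mp hw
    have copy : ∀ t ∈ TT H L P rx ry xs ys loc b, w ∈ vs (img L (G t)) →
        ∃ S, w ∈ S ∧ BadS (SimpleGraph.fromEdgeSet (J : Set (Sym2 (Fin n)))) r S ∧
          ∀ S', BadS H r S' → S.card ≤ S'.card :=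
      fun t ht hwt => heavy_copy hC.heavy (hG t) (hJG t ht) hwt
    rcases hmemJ e he with h | ⟨t, ht, h⟩
    · rcases mem_JB.mp h with ⟨e', he', rfl⟩ | ⟨t, ht, rfl⟩
      · obtain ⟨u, hu, rfl⟩ := Sym2.mem_map.mp hwe
        obtain ⟨i, hi⟩ := KB_at he' hu
        obtain ⟨S, huS, hS, hmin, bS, hbS⟩ := hB.crit u
        rcases hl : loc u with ⟨b', i'⟩ | ⟨z, w'⟩
        · -- an inner slot
          have h1 := KB_inl he' hu hl
          obtain ⟨k, hk⟩ := hbS u huS
          rw [hl] at hk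
          have h2 : bS = b := (at_inl hk).1.symm.trans h1
          rw [h2] at hbS
          exact hB.heavy_K hF g hJB hS hmin hbS huS
        · -- a root
          have hi' := hi
          rw [hl] at hi'
          obtain ⟨t', hz, hw'⟩ := at_inr hi'
          by_cases htT : t' ∈ TT H L P rx ry xs ys loc b
          · refine copy t' htT ?_
            rw [hB.pos_eq g hi]
            rcases hw' with ⟨-, h1⟩ | ⟨-, h1⟩
            · rw [h1]; exact (hxv t').1
            · rw [h1]; exact (hxv t').2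
          · -- the side is empty, so all edges at `u` are in the blob
            have hmb : MinBad L r S := by
              refine ⟨hS, fun S' hS' => ?_⟩
              obtain ⟨f, hfi, hfh⟩ := hC.emb
              exact (hmin _ (BadS.image (fun i _ j _ hij => hfh i j hij) hS')).trans
                Finset.card_image_le
            obtain ⟨v, hvS, huv⟩ := MP3240C.Cri.MinBad.nbr hmb huS
            obtain ⟨b2, hb2⟩ := hB.KB_cov (mem_ed.mpr huv)
            have hbb : b2 = b := by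
              by_contra hne
              apply htT
              obtain ⟨k, hk⟩ := KB_at hb2 (Sym2.mem_mk_left u v)
              rw [hl] at hk
              obtain ⟨t2, hz2, -⟩ := at_inr hk
              refine mem_TT.mpr ⟨s(u, v), mem_SD.mpr ⟨b2, hne, hb2, t2, ?_⟩⟩
              rw [← hz, ← hz2]
            rw [hbb] at hb2
            obtain ⟨w, hw, k, hk⟩ := KB_used hb2
            rw [Sym2.mem_iff] at hw
            have h2 : bS = b := by
              rcases hw with rfl | rfl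
              · rw [hk] at hl
                exact absurd hl (by simp)
              · obtain ⟨k', hk'⟩ := hbS w hvS
                rw [hk] at hk'
                exact (at_inl hk').1.symm
            rw [h2] at hbS
            exact hB.heavy_K hF g hJB hS hmin hbS huS
      · refine copy t ht ?_
        rw [Sym2.mem_iff] at hwe
        rcases hwe with rfl | rfl
        · exact (hxv t).1
        · exact (hxv t).2
    · exact copy t ht (mem_vs.mpr ⟨e, h, hwe⟩)
  have hmax : ∀ t ∈ TT H L P rx ry xs ys loc b, J = img L (G t) := fun t ht =>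
    hC.max_eq (mem_cps.mpr ⟨G t, hG t, rfl⟩) hJH hJT (hJG t ht) hJS
  refine ⟨by rw [← hmax t ht]; exact hJB, ?_⟩
  intro t' ht'
  have himg : img L (G t') = img L (G t) := (hmax t' ht').symm.trans (hmax t ht)
  refine hF.one t' t (G t') (hG t') ?_ ?_
  · obtain ⟨i, j, -, h1, -⟩ := hGp t'
    exact ⟨i, Or.inl h1⟩
  · have h1 := (hxv t).1
    rw [← himg] at h1
    obtain ⟨i, -, -, hi⟩ := mem_vs_img.mp h1
    exact ⟨i, Or.inl hi⟩

/-- Some side of a used blob is not empty. -/
theorem Blobs.side (hC : Core H r L) (hr : 2 ≤ r) (hB : Blobs H r L X' xs ys P rx ry loc)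
    (hF : XF H L X' xs ys) {b : β} (hK : (KB H L P rx ry xs ys loc b).Nonempty) :
    (TT H L P rx ry xs ys loc b).Nonempty := by
  classical
  by_contra hemp
  have hall : ∀ e ∈ ed L, e ∈ KB H L P rx ry xs ys loc b := by
    intro e he
    rcases hB.cov hC.two hK he with h | ⟨t, h⟩
    · exact h
    · exact absurd ⟨t, mem_TT.mpr ⟨e, h⟩⟩ hemp
  obtain ⟨g, -, -⟩ := hC.emb
  set f := pos P rx ry xs ys loc g b with hf
  have hat : ∀ u, ∃ i, AtB P rx ry xs ys b (loc u) i := by
    intro u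
    obtain ⟨v, hv⟩ := hC.nb hr u
    exact KB_at (hall _ (mem_ed.mpr hv)) (Sym2.mem_mk_left u v)
  have hfat : ∀ u, AtB P rx ry xs ys b (loc u) (f u) := by
    intro u
    obtain ⟨i, hi⟩ := hat u
    rw [hf, hB.pos_eq g hi]
    exact hi
  have hE : IsE L H f := by
    refine ⟨?_, ?_⟩
    · intro u v huv
      have h1 := hfat u
      rw [huv] at h1
      exact hB.at_inj hF h1 (hfat v)
    · intro u v huv
      obtain ⟨-, i, j, h1, h2, h3, -⟩ := mem_KB.mp (hall _ (mem_ed.mpr huv))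
      rw [hB.at_uniq (hfat u) h1, hB.at_uniq (hfat v) h2]
      exact h3
  rcases hF.hit f hE with ⟨u, hu⟩ | ⟨t, u, v, huv, h1, h2⟩
  · rcases hfat u with h | ⟨t, ⟨-, h⟩ | ⟨-, h⟩⟩
    · exact (hB.inn u b _ h).1 hu
    · exact (hF.off t _ hu).1 h
    · exact (hF.off t _ hu).2.1 h
  · obtain ⟨-, i, j, h3, h4, -, h5⟩ := mem_KB.mp (hall _ (mem_ed.mpr huv))
    rcases h5 with h5 | h5
    · have h6 := hB.at_uniq h3 (hfat u)
      exact ((hB.inn u b i h5).2 t).1 (h6.trans h1)
    · have h6 := hB.at_uniq h4 (hfat v)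
      exact ((hB.inn v b j h5).2 t).2 (h6.trans h2)

/-- **The closure lemma.** -/
theorem blob_closure (hC : Core H r L) (hr : 2 ≤ r) (hF : XF H L X' xs ys)
    (hB : Blobs H r L X' xs ys P rx ry loc) : False := by
  classical
  obtain ⟨g, -, -⟩ := hC.emb
  choose G hG hGX hGp hGo using hF.own
  -- the only side of a used blob
  have hside : ∀ b, (KB H L P rx ry xs ys loc b).Nonempty →
      ∃ t, t ∈ TT H L P rx ry xs ys loc b ∧ ∀ t' ∈ TT H L P rx ry xs ys loc b, t' = t := by
    intro b hK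
    obtain ⟨t, ht⟩ := hB.side hC hr hF hK
    exact ⟨t, ht, (hB.one_copy hC hr hF g hG hGp hK ht).2⟩
  have huniq : ∀ b, (KB H L P rx ry xs ys loc b).Nonempty → ∀ t t',
      t ∈ TT H L P rx ry xs ys loc b → t' ∈ TT H L P rx ry xs ys loc b → t = t' := by
    intro b hK t t' h1 h2
    obtain ⟨t0, -, h3⟩ := hside b hK
    rw [h3 t h1, h3 t' h2]
  -- adjacent used blobs
  have hadjS : ∀ b b', (KB H L P rx ry xs ys loc b').Nonempty → b' ≠ b → ∀ t t',
      P b t = P b' t' → t ∈ TT H L P rx ry xs ys loc b := by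
    intro b b' hK' hne t t' hP
    obtain ⟨e, he⟩ := hK'
    refine mem_TT.mpr ⟨e, mem_SD.mpr ⟨b', hne, he, t', ?_⟩⟩
    rw [hP]
  -- a used blob has an edge
  have hKne : ∀ b', (∃ u i, loc u = .inl (b', i)) → (KB H L P rx ry xs ys loc b').Nonempty := by
    rintro b' ⟨u, i, hu⟩
    obtain ⟨v, hv⟩ := hC.nb hr u
    obtain ⟨b2, hb2⟩ := hB.KB_cov (mem_ed.mpr hv)
    rw [KB_inl hb2 (Sym2.mem_mk_left u v) hu]
    exact ⟨_, hb2⟩
  -- the passenger sets which are connected with `P b t`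
  have hconn : ∀ b t, (KB H L P rx ry xs ys loc b).Nonempty →
      t ∈ TT H L P rx ry xs ys loc b → ∀ Z, Relation.ReflTransGen (Lk P loc b) (P b t) Z →
      Z = P b t ∨ ∃ b1, b1 ≠ b ∧ (KB H L P rx ry xs ys loc b1).Nonempty ∧
        (∃ s, P b1 s = P b t) ∧ ∃ s, P b1 s = Z := by
    intro b t hKb ht Z hZ
    induction hZ with
    | refl => exact Or.inl rfl
    | tail _ h2 ih =>
      rename_i Z1 Z2 _
      obtain ⟨b2, hb2, hused, ⟨s1, hs1⟩, ⟨s2, hs2⟩⟩ := h2
      rcases ih with h | ⟨b1, hb1, hK1, ⟨s, hs⟩, ⟨s', hs'⟩⟩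
      · right
        exact ⟨b2, hb2, hKne b2 hused, ⟨s1, hs1.trans h⟩, ⟨s2, hs2⟩⟩
      · by_cases hbb : b2 = b1
        · right
          exact ⟨b1, hb1, hK1, ⟨s, hs⟩, ⟨s2, by rw [← hbb]; exact hs2⟩⟩
        · -- two sides of `b1`
          have h3 : s ∈ TT H L P rx ry xs ys loc b1 := hadjS b1 b hKb (Ne.symm hb1) s t hs
          have h4 : s' ∈ TT H L P rx ry xs ys loc b1 :=
            hadjS b1 b2 (hKne b2 hused) hbb s' s1 (hs'.trans hs1.symm)
          have h5 := huniq b1 hK1 s s' h3 h4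
          right
          exact ⟨b2, hb2, hKne b2 hused, ⟨s1, by rw [hs1, ← hs', ← h5, hs]⟩, ⟨s2, hs2⟩⟩
  -- all used blobs have the same side
  have hsame : ∀ b b', (KB H L P rx ry xs ys loc b).Nonempty →
      (KB H L P rx ry xs ys loc b').Nonempty → b' ≠ b → ∀ t,
      t ∈ TT H L P rx ry xs ys loc b → t ∈ TT H L P rx ry xs ys loc b' := by
    intro b b' hKb hKb' hne t ht
    -- `P b t` is a passenger set of `b'`
    obtain ⟨s, hs⟩ : ∃ s, P b' s = P b t := by
      obtain ⟨e, he⟩ := hKb'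
      rcases hB.cov hC.two hKb (KB_sub he) with h | ⟨t'', h⟩
      · exact absurd (KB_uniq he h) hne
      · have h1 : t'' = t := huniq b hKb t'' t (mem_TT.mpr ⟨e, h⟩) ht
        rw [h1] at h
        obtain ⟨b2, -, h3, t2, h4⟩ := mem_SD.mp h
        have h5 : b2 = b' := KB_uniq h3 he
        rw [h5] at h4
        rcases hconn b t hKb ht _ h4 with h6 | ⟨b1, hb1, hK1, ⟨s, hs⟩, ⟨s', hs'⟩⟩
        · exact ⟨t2, h6⟩
        · by_cases hbb : b' = b1
          · exact ⟨s, by rw [hbb]; exact hs⟩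
          · have h7 : s ∈ TT H L P rx ry xs ys loc b1 := hadjS b1 b hKb (Ne.symm hb1) s t hs
            have h8 : s' ∈ TT H L P rx ry xs ys loc b1 :=
              hadjS b1 b' ⟨e, he⟩ hbb s' t2 hs'
            have h9 := huniq b1 hK1 s s' h7 h8
            exact ⟨t2, by rw [← hs', ← h9, hs]⟩
    have hst : s = t := hB.typ b' b s t hs
    rw [hst] at hs
    exact hadjS b' b hKb (Ne.symm hne) t t hs
  -- start
  obtain ⟨e1, he1, -⟩ := hC.two_edges hr
  obtain ⟨b1, hb1⟩ := hB.KB_cov he1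
  have hK1 : (KB H L P rx ry xs ys loc b1).Nonempty := ⟨e1, hb1⟩
  obtain ⟨t, ht1, -⟩ := hside b1 hK1
  obtain ⟨i0, j0, hij0, hi0, hj0⟩ := hGp t
  obtain ⟨b, hb⟩ := hB.KB_cov (mem_ed.mpr hij0)
  have hK : (KB H L P rx ry xs ys loc b).Nonempty := ⟨_, hb⟩
  have ht : t ∈ TT H L P rx ry xs ys loc b := by
    by_cases hbb : b = b1
    · rw [hbb]; exact ht1
    · exact hsame b1 b hK1 hK hbb t ht1
  obtain ⟨hJ, -⟩ := hB.one_copy hC hr hF g hG hGp hK ht
  obtain ⟨u0, v0, hu0, hv0, hu0K, hv0K⟩ := hB.roots hC.two hK (mem_TT.mp ht)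
  -- the map
  set ψ := pos P rx ry xs ys loc g b with hψ
  have hψu : ψ u0 = xs t := hB.pos_eq g (Or.inr ⟨t, Or.inl ⟨hu0, rfl⟩⟩)
  have hψv : ψ v0 = ys t := hB.pos_eq g (Or.inr ⟨t, Or.inr ⟨hv0, rfl⟩⟩)
  set φ : Fin d → Fin d := fun u => if h : ∃ i, G t i = ψ u then h.choose else u with hφ
  have hφs : ∀ u i, G t i = ψ u → φ u = i := by
    intro u i hi
    have h : ∃ i, G t i = ψ u := ⟨i, hi⟩
    show (if h : ∃ i, G t i = ψ u then h.choose else u) = i
    rw [dif_pos h]
    exact (hG t).1 (h.choose_spec.trans hi.symm)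
  have hKφ : ∀ u v, s(u, v) ∈ KB H L P rx ry xs ys loc b →
      L.Adj (φ u) (φ v) ∧ G t (φ u) = ψ u ∧ G t (φ v) = ψ v := by
    intro u v huv
    have h1 : s(ψ u, ψ v) ∈ img L (G t) := hJ (mem_JB.mpr (Or.inl ⟨_, huv, by rw [Sym2.map_mk]⟩))
    obtain ⟨a, c, hac, ha, hc⟩ := mem_img.mp h1
    rw [hφs u a ha, hφs v c hc]
    exact ⟨hac, ha, hc⟩
  have hGφ : ∀ u, (∃ e ∈ KB H L P rx ry xs ys loc b, u ∈ e) → G t (φ u) = ψ u := by
    rintro u ⟨e, he, hu⟩
    induction e using Sym2.ind with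
    | _ a c =>
      obtain ⟨-, h2, h3⟩ := hKφ a c he
      rw [Sym2.mem_iff] at hu
      rcases hu with rfl | rfl
      · exact h2
      · exact h3
  have hside' : ∀ e ∈ ed L, e ∈ KB H L P rx ry xs ys loc b ∨
      e ∈ SD H L P rx ry xs ys loc b t := by
    intro e he
    rcases hB.cov hC.two hK he with h | ⟨t', h⟩
    · exact Or.inl h
    · right
      rw [← huniq b hK t' t (mem_TT.mpr ⟨e, h⟩) ht]
      exact h
  refine MP3240W.g0_proof d L (KB H L P rx ry xs ys loc b) (SD H L P rx ry xs ys loc b t)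
    s(i0, j0) u0 v0 φ hC.two ?_ ?_ hb (mem_TT.mp ht) ?_ ?_ ?_ ?_ ?_
  · rw [Finset.disjoint_left]
    exact fun e he he' => SD_KB he' he
  · intro e
    exact ⟨hside' e, fun h => h.elim KB_sub SD_sub⟩
  · intro huv
    obtain ⟨b2, hb2⟩ := hB.KB_cov (mem_ed.mpr huv)
    obtain ⟨w, hw, k, hk⟩ := KB_used hb2
    rw [Sym2.mem_iff] at hw
    rcases hw with rfl | rfl
    · rw [hu0] at hk
      exact absurd hk (by simp)
    · rw [hv0] at hk
      exact absurd hk (by simp)
  · rintro v ⟨⟨e, he, hve⟩, ⟨e', he', hve'⟩⟩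
    rcases hB.SD_root he' he hve' hve with h | h
    · exact Or.inl (hB.inj (h.trans hu0.symm))
    · exact Or.inr (hB.inj (h.trans hv0.symm))
  · intro u v hu hv huv
    have h1 : ψ u = ψ v := by rw [← hGφ u hu, ← hGφ v hv, huv]
    obtain ⟨e, he, hue⟩ := hu
    obtain ⟨e', he', hve'⟩ := hv
    obtain ⟨i, hi⟩ := KB_at he hue
    obtain ⟨j, hj⟩ := KB_at he' hve'
    have h2 : i = j := (hB.pos_eq g hi).symm.trans (h1.trans (hB.pos_eq g hj))
    rw [← h2] at hj
    exact hB.at_inj hF hi hj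
  · intro e he
    induction e using Sym2.ind with
    | _ u v =>
      obtain ⟨h1, h2, h3⟩ := hKφ u v he
      rw [Sym2.map_mk]
      refine ⟨mem_ed.mpr h1, ?_⟩
      intro h4
      -- one of `u`, `v` is an inner slot
      have inner : ∀ w k, loc w = .inl (b, k) → G t (φ w) = ψ w →
          φ w = i0 ∨ φ w = j0 → False := by
        intro w k hk h5 h6
        have h7 : ψ w = k := hB.pos_eq g (Or.inl hk)
        rcases h6 with h6 | h6
        · rw [h6, hi0, h7] at h5
          exact ((hB.inn w b k hk).2 t).1 h5.symm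
        · rw [h6, hj0, h7] at h5
          exact ((hB.inn w b k hk).2 t).2 h5.symm
      obtain ⟨w, hw, k, hk⟩ := KB_used he
      rw [Sym2.mem_iff] at hw
      have h4' : φ u = i0 ∧ φ v = j0 ∨ φ u = j0 ∧ φ v = i0 := Sym2.eq_iff.mp h4
      rcases hw with rfl | rfl
      · exact inner w k hk h2 (h4'.elim (fun h => Or.inl h.1) (fun h => Or.inr h.1))
      · exact inner w k hk h3 (h4'.elim (fun h => Or.inr h.2) (fun h => Or.inl h.2))
  · rw [hφs u0 i0 (hi0.trans hψu.symm), hφs v0 j0 (hj0.trans hψv.symm)]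

end MP3240K
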