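import Pool.Agent.Lib.MP_3240be_co.H19K.Ear
import Pool.Agent.Lib.MP_3240be_co.X70.Wlk

/-!
# MP_3240be_co: clusters of cores (finding 4722 (1))

`CC` is the family of the copies of one 2-connected graph in `H` (sets of edges); the only
information used is the maximality `Copies.max`.
-/

set_option autoImplicit false

namespace MP3240K

open Finset MP3240W

variable {V : Type} [Fintype V] [DecidableEq V]

/-- The family of the copies of one core. -/
structure Copies (H : SimpleGraph V) (CC : Finset (Finset (Sym2 V))) : Prop where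
  sub : ∀ C ∈ CC, ∀ e ∈ C, e ∈ H.edgeSet
  two : ∀ C ∈ CC, TwoC C
  nt : ∀ C ∈ CC, ∃ e ∈ C, ∃ e' ∈ C, e ≠ e'
  max : ∀ C ∈ CC, ∀ J : Finset (Sym2 V), (∀ e ∈ J, e ∈ H.edgeSet) → TwoC J → C ⊆ J →
    (∀ v ∈ vs J, ∃ C' ∈ CC, C' ⊆ J ∧ v ∈ vs C') → J = C

/-- Two copies with two common vertices are equal. -/
theorem Copies.inter {H : SimpleGraph V} {CC : Finset (Finset (Sym2 V))} (h : Copies H CC)
    {C C' : Finset (Sym2 V)} (hC : C ∈ CC) (hC' : C' ∈ CC) {u v : V} (huv : u ≠ v)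
    (hu : u ∈ vs C) (hv : v ∈ vs C) (hu' : u ∈ vs C') (hv' : v ∈ vs C') : C = C' := by
  classical
  have hT := TwoC_union (h.two C hC) (h.two C' hC') huv hu hv hu' hv'
  have hsub : ∀ e ∈ C ∪ C', e ∈ H.edgeSet := by
    intro e he
    rcases Finset.mem_union.mp he with h1 | h1
    · exact h.sub C hC e h1
    · exact h.sub C' hC' e h1
  have hcov : ∀ w ∈ vs (C ∪ C'), ∃ D ∈ CC, D ⊆ C ∪ C' ∧ w ∈ vs D := by
    intro w hw
    obtain ⟨e, he, hwe⟩ := mem_vs.mp hw
    rcases Finset.mem_union.mp he with h1 | h1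
    · exact ⟨C, hC, Finset.subset_union_left, mem_vs.mpr ⟨e, h1, hwe⟩⟩
    · exact ⟨C', hC', Finset.subset_union_right, mem_vs.mpr ⟨e, h1, hwe⟩⟩
  have h1 := h.max C hC _ hsub hT Finset.subset_union_left hcov
  have h2 := h.max C' hC' _ hsub hT Finset.subset_union_right hcov
  exact h1.symm.trans h2

/-- Ends of an edge of `C` are vertices of `C`. -/
theorem mem_vs_left {C : Finset (Sym2 V)} {x y : V} (h : s(x, y) ∈ C) : x ∈ vs C :=
  mem_vs.mpr ⟨_, h, Sym2.mem_mk_left _ _⟩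

theorem mem_vs_right {C : Finset (Sym2 V)} {x y : V} (h : s(x, y) ∈ C) : y ∈ vs C :=
  mem_vs.mpr ⟨_, h, Sym2.mem_mk_right _ _⟩

/-- An edge of `H` between two vertices of a copy is an edge of the copy. -/
theorem Copies.induced {H : SimpleGraph V} {CC : Finset (Finset (Sym2 V))} (h : Copies H CC)
    {C : Finset (Sym2 V)} (hC : C ∈ CC) {u v : V} (hu : u ∈ vs C) (hv : v ∈ vs C)
    (huv : H.Adj u v) : s(u, v) ∈ C := by
  classical
  have hT := TwoC_union (h.two C hC) (TwoC_singleton s(u, v)) huv.ne hu hv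
    (mem_vs_left (Finset.mem_singleton_self _)) (mem_vs_right (Finset.mem_singleton_self _))
  have := h.max C hC _ (by
      intro e he
      rcases Finset.mem_union.mp he with h1 | h1
      · exact h.sub C hC e h1
      · rw [Finset.mem_singleton.mp h1]; exact huv) hT Finset.subset_union_left (by
      intro w hw
      obtain ⟨e, he, hwe⟩ := mem_vs.mp hw
      refine ⟨C, hC, Finset.subset_union_left, ?_⟩
      rcases Finset.mem_union.mp he with h1 | h1
      · exact mem_vs.mpr ⟨e, h1, hwe⟩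
      · rw [Finset.mem_singleton.mp h1, Sym2.mem_iff] at hwe
        rcases hwe with h2 | h2
        · rw [h2]; exact hu
        · rw [h2]; exact hv)
  rw [← this]
  exact Finset.mem_union_right _ (Finset.mem_singleton_self _)

/-- The graph of the copies other than `o`, with the edges `M`. -/
def GM (CC : Finset (Finset (Sym2 V))) (o : Finset (Sym2 V)) (M : Finset (Sym2 V)) :
    SimpleGraph V :=
  SimpleGraph.fromEdgeSet {e | (∃ C ∈ CC, C ≠ o ∧ e ∈ C) ∨ e ∈ M}

/-- The graph of all copies, with the edges `M`. -/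
def GA (CC : Finset (Finset (Sym2 V))) (M : Finset (Sym2 V)) : SimpleGraph V :=
  SimpleGraph.fromEdgeSet {e | (∃ C ∈ CC, e ∈ C) ∨ e ∈ M}

/-- A path as a function. -/
theorem pathfn {W : Type} {G : SimpleGraph W} {u w : W} (hr : G.Reachable u w) :
    ∃ (l : ℕ) (p : ℕ → W), p 0 = u ∧ p l = w ∧ (∀ i ≤ l, ∀ j ≤ l, p i = p j → i = j) ∧
      ∀ i < l, G.Adj (p i) (p (i + 1)) := by
  classical
  obtain ⟨q⟩ := hr
  refine ⟨q.toPath.1.length, q.toPath.1.getVert, q.toPath.1.getVert_zero,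
    q.toPath.1.getVert_length, ?_, ?_⟩
  · intro i hi j hj hij
    exact q.toPath.2.getVert_injOn hi hj hij
  · intro i hi
    exact q.toPath.1.adj_getVert_succ hi

theorem GM_adj {CC : Finset (Finset (Sym2 V))} {o M : Finset (Sym2 V)} {x y : V} :
    (GM CC o M).Adj x y ↔ ((∃ C ∈ CC, C ≠ o ∧ s(x, y) ∈ C) ∨ s(x, y) ∈ M) ∧ x ≠ y := by
  unfold GM
  rw [SimpleGraph.fromEdgeSet_adj]
  exact Iff.rfl

theorem GA_adj {CC : Finset (Finset (Sym2 V))} {M : Finset (Sym2 V)} {x y : V} :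
    (GA CC M).Adj x y ↔ ((∃ C ∈ CC, s(x, y) ∈ C) ∨ s(x, y) ∈ M) ∧ x ≠ y := by
  unfold GA
  rw [SimpleGraph.fromEdgeSet_adj]
  exact Iff.rfl

/-- Two vertices of a copy `o` are not connected by other copies and a matching `M` of edges
which are not in `o`. -/
theorem Copies.noear {H : SimpleGraph V} {CC : Finset (Finset (Sym2 V))} (h : Copies H CC)
    (M : Finset (Sym2 V)) (hM : ∀ e ∈ M, e ∈ H.edgeSet)
    (hMm : ∀ e ∈ M, ∀ e' ∈ M, ∀ x, x ∈ e → x ∈ e' → e = e') {o : Finset (Sym2 V)} (ho : o ∈ CC)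
    (hMo : ∀ e ∈ M, e ∉ o) {u w : V} (hu : u ∈ vs o) (hw : w ∈ vs o) (huw : u ≠ w)
    (hr : (GM CC o M).Reachable u w) : False := by
  classical
  obtain ⟨l, P, h0, hl', hinj, hadj⟩ := pathfn hr
  have hlpos : 0 < l := by
    rcases Nat.eq_zero_or_pos l with h1 | h1
    · rw [h1] at hl'
      exact absurd (h0.symm.trans hl') huw
    · exact h1
  have hedge : ∀ i < l, (∃ C ∈ CC, C ≠ o ∧ s(P i, P (i + 1)) ∈ C) ∨
      s(P i, P (i + 1)) ∈ M := fun i hi => (GM_adj.mp (hadj i hi)).1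
  -- the atoms
  have hch : ∀ i, ∃ A : Finset (Sym2 V), (i < l → TwoC A ∧
      s(P i, P (i + 1)) ∈ A ∧ (∀ e ∈ A, e ∈ H.edgeSet) ∧
      ((A ∈ CC) ∨ (A = {s(P i, P (i + 1))} ∧
        s(P i, P (i + 1)) ∈ M))) := by
    intro i
    by_cases hi : i < l
    · rcases hedge i hi with ⟨C, hC, hne, hmem⟩ | hmem
      · exact ⟨C, fun _ => ⟨h.two C hC, hmem, h.sub C hC, Or.inl hC⟩⟩
      · refine ⟨{s(P i, P (i + 1))}, fun _ => ⟨TwoC_singleton _,
          Finset.mem_singleton_self _, ?_, Or.inr ⟨rfl, hmem⟩⟩⟩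
        intro e he
        rw [Finset.mem_singleton.mp he]
        exact hM _ hmem
    · exact ⟨∅, fun h1 => absurd h1 hi⟩
  choose A hA using hch
  set J := o ∪ (range l).biUnion A with hJ
  have hTJ : TwoC J := ear (h.two o ho) l P hinj (by rw [h0]; exact hu)
    (by rw [hl']; exact hw) A (fun i hi => (hA i hi).1) (fun i hi => (hA i hi).2.1)
  have hAJ : ∀ i < l, A i ⊆ J := fun i hi =>
    (Finset.subset_biUnion_of_mem A (Finset.mem_range.mpr hi)).trans Finset.subset_union_right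
  -- inner vertices
  have hin : ∀ i ≤ l, ∃ C' ∈ CC, C' ⊆ J ∧ (P i) ∈ vs C' := by
    intro i hi
    rcases Nat.eq_zero_or_pos i with h1 | h1
    · exact ⟨o, ho, Finset.subset_union_left, by rw [h1, h0]; exact hu⟩
    rcases Nat.eq_or_lt_of_le hi with h2 | h2
    · exact ⟨o, ho, Finset.subset_union_left, by rw [h2, hl']; exact hw⟩
    obtain ⟨j, hj⟩ : ∃ j, i = j + 1 := ⟨i - 1, by omega⟩
    have hjl : j < l := by omega
    rcases (hA i h2).2.2.2 with h3 | ⟨-, h3⟩
    · exact ⟨A i, h3, hAJ i h2, mem_vs_left (hA i h2).2.1⟩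
    rcases (hA j hjl).2.2.2 with h4 | ⟨-, h4⟩
    · refine ⟨A j, h4, hAJ j hjl, ?_⟩
      rw [hj]
      exact mem_vs_right (hA j hjl).2.1
    · exfalso
      have := hMm _ h4 _ h3 ((P i)) (by rw [hj]; exact Sym2.mem_mk_right _ _)
        (Sym2.mem_mk_left _ _)
      rw [Sym2.eq_iff] at this
      rcases this with ⟨h5, h6⟩ | ⟨h5, h6⟩
      · have := hinj j (by omega) i (by omega) h5
        omega
      · have := hinj j (by omega) (i + 1) (by omega) h5
        omega
  have hJo : J = o := by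
    apply h.max o ho J _ hTJ Finset.subset_union_left
    · intro v hv
      obtain ⟨e, he, hve⟩ := mem_vs.mp hv
      rcases Finset.mem_union.mp he with h1 | h1
      · exact ⟨o, ho, Finset.subset_union_left, mem_vs.mpr ⟨e, h1, hve⟩⟩
      · obtain ⟨i, hi, hei⟩ := Finset.mem_biUnion.mp h1
        have hil := Finset.mem_range.mp hi
        rcases (hA i hil).2.2.2 with h3 | ⟨h3, -⟩
        · exact ⟨A i, h3, hAJ i hil, mem_vs.mpr ⟨e, hei, hve⟩⟩
        · rw [h3, Finset.mem_singleton] at hei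
          rw [hei, Sym2.mem_iff] at hve
          rcases hve with h4 | h4
          · rw [h4]; exact hin i (by omega)
          · rw [h4]; exact hin (i + 1) (by omega)
    · intro e he
      rcases Finset.mem_union.mp he with h1 | h1
      · exact h.sub o ho e h1
      · obtain ⟨i, hi, hei⟩ := Finset.mem_biUnion.mp h1
        exact (hA i (Finset.mem_range.mp hi)).2.2.1 e hei
  -- the first edge is not in `o`
  have hmem : s(P 0, P (0 + 1)) ∈ o := by
    rw [← hJo]
    exact hAJ 0 hlpos (hA 0 hlpos).2.1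
  rcases hedge 0 hlpos with ⟨C, hC, hne, hC2⟩ | hM2
  · have hne2 : (P 0) ≠ (P (0 + 1)) := by
      intro h1
      have := hinj 0 (by omega) (0 + 1) (by omega) h1
      omega
    exact hne (h.inter hC ho hne2 (mem_vs_left hC2) (mem_vs_right hC2) (mem_vs_left hmem)
      (mem_vs_right hmem))
  · exact hMo _ hM2 hmem

/-- The way out of the first copy of a path. -/
theorem Copies.exit {H : SimpleGraph V} {CC : Finset (Finset (Sym2 V))} (h : Copies H CC)
    (M : Finset (Sym2 V)) {t v : V} (htv : t ≠ v) (ht : ∀ e ∈ M, t ∉ e)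
    (hr : (GA CC M).Reachable t v) :
    ∃ o ∈ CC, t ∈ vs o ∧ ∃ w ∈ vs o, w ≠ t ∧ (GM CC o M).Reachable w v := by
  classical
  obtain ⟨l, P, h0, hl', hinj, hadj⟩ := pathfn hr
  have hlpos : 0 < l := by
    rcases Nat.eq_zero_or_pos l with h1 | h1
    · rw [h1] at hl'
      exact absurd (h0.symm.trans hl') htv
    · exact h1
  have hedge : ∀ i < l, (∃ C ∈ CC, s(P i, P (i + 1)) ∈ C) ∨
      s(P i, P (i + 1)) ∈ M := fun i hi => (GA_adj.mp (hadj i hi)).1
  obtain ⟨o, ho, hom⟩ : ∃ o ∈ CC, s(P 0, P (0 + 1)) ∈ o := by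
    rcases hedge 0 hlpos with h1 | h1
    · exact h1
    · exfalso
      have h2 := Sym2.mem_mk_left ((P 0)) ((P (0 + 1)))
      exact ht _ h1 (h0 ▸ h2)
  set j := Nat.findGreatest (fun i => (P i) ∈ vs o) l with hj
  have hj1 : 1 ≤ j := Nat.le_findGreatest (by omega) (mem_vs_right hom)
  have hjl : j ≤ l := Nat.findGreatest_le l
  have hjm : (P j) ∈ vs o :=
    Nat.findGreatest_spec (P := fun i => (P i) ∈ vs o) (by omega : 1 ≤ l) (mem_vs_right hom)
  have hjg : ∀ i, j < i → i ≤ l → (P i) ∉ vs o := fun i h1 h2 =>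
    Nat.findGreatest_is_greatest (P := fun i => (P i) ∈ vs o) h1 h2
  have hto : t ∈ vs o := by
    rw [← h0]
    exact mem_vs_left hom
  refine ⟨o, ho, hto, (P j), hjm, ?_, ?_⟩
  · intro h1
    have := hinj j hjl 0 (by omega) (h1.trans h0.symm)
    omega
  · have key : ∀ i, j ≤ i → i ≤ l → (GM CC o M).Reachable ((P j)) ((P i)) := by
      intro i hi
      induction i, hi using Nat.le_induction with
      | base => intro _; exact SimpleGraph.Reachable.refl _
      | succ i hi ih =>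
        intro hil
        refine (ih (by omega)).trans (SimpleGraph.Adj.reachable ?_)
        rw [GM_adj]
        refine ⟨?_, ?_⟩
        · rcases hedge i (by omega) with ⟨C, hC, hC2⟩ | h1
          · refine Or.inl ⟨C, hC, ?_, hC2⟩
            rintro rfl
            exact hjg (i + 1) (by omega) hil (mem_vs_right hC2)
          · exact Or.inr h1
        · intro h1
          have := hinj i (by omega) (i + 1) (by omega) h1
          omega
    have := key l hjl le_rfl
    rw [hl'] at this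
    exact this

/-! ## The vertex sets of the copies -/

/-- The vertex sets of the copies. -/
def vsets (CC : Finset (Finset (Sym2 V))) : Finset (Finset V) := CC.image vs

theorem mem_vsets {CC : Finset (Finset (Sym2 V))} {o : Finset V} :
    o ∈ vsets CC ↔ ∃ C ∈ CC, vs C = o := by
  unfold vsets
  exact Finset.mem_image

theorem GA_reach {H : SimpleGraph V} {CC : Finset (Finset (Sym2 V))} (h : Copies H CC)
    (M : Finset (Sym2 V)) {C : Finset (Sym2 V)} (hC : C ∈ CC) {a b : V} (ha : a ∈ vs C)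
    (hb : b ∈ vs C) : (GA CC M).Reachable a b := by
  refine TwoC_reachable (h.two C hC) _ ?_ ha hb
  intro e he
  have hd := H.not_isDiag_of_mem_edgeSet (h.sub C hC e he)
  rw [GA, SimpleGraph.edgeSet_fromEdgeSet]
  exact ⟨Or.inl ⟨C, hC, he⟩, hd⟩

theorem GM_reach {H : SimpleGraph V} {CC : Finset (Finset (Sym2 V))} (h : Copies H CC)
    (o M : Finset (Sym2 V)) {C : Finset (Sym2 V)} (hC : C ∈ CC) (hne : C ≠ o) {a b : V}
    (ha : a ∈ vs C) (hb : b ∈ vs C) : (GM CC o M).Reachable a b := by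
  refine TwoC_reachable (h.two C hC) _ ?_ ha hb
  intro e he
  have hd := H.not_isDiag_of_mem_edgeSet (h.sub C hC e he)
  rw [GM, SimpleGraph.edgeSet_fromEdgeSet]
  exact ⟨Or.inl ⟨C, hC, hne, he⟩, hd⟩

theorem GM_mono {CC : Finset (Finset (Sym2 V))} {o M M' : Finset (Sym2 V)} (hM : M ⊆ M')
    {a b : V} (hr : (GM CC o M).Reachable a b) : (GM CC o M').Reachable a b := by
  refine hr.mono ?_
  intro x y hxy
  rw [GM, SimpleGraph.fromEdgeSet_adj] at hxy ⊢
  refine ⟨?_, hxy.2⟩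
  rcases hxy.1 with h1 | h1
  · exact Or.inl h1
  · exact Or.inr (hM h1)

/-- `Sep`: two vertices of a core are not connected by the other cores. -/
theorem Copies.sep {H : SimpleGraph V} {CC : Finset (Finset (Sym2 V))} (h : Copies H CC) :
    MP3240X.Sep (vsets CC) := by
  classical
  intro o ho u hu v hv hr
  obtain ⟨C, hC, rfl⟩ := mem_vsets.mp ho
  by_contra huv
  refine h.noear ∅ (by simp) (by simp) hC (by simp) hu hv huv ?_
  have key : ∀ a b, MP3240X.Rch ((vsets CC).erase (vs C)) a b →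
      (GM CC C ∅).Reachable a b := by
    intro a b hab
    induction hab with
    | refl => exact SimpleGraph.Reachable.refl _
    | tail _ h2 ih =>
      obtain ⟨o', ho', h3, h4⟩ := h2
      obtain ⟨hne, hmem⟩ := Finset.mem_erase.mp ho'
      obtain ⟨C', hC', rfl⟩ := mem_vsets.mp hmem
      exact ih.trans (GM_reach h C ∅ hC' (fun h5 => hne (by rw [h5])) h3 h4)
  exact key u v hr

theorem Rch_GA {H : SimpleGraph V} {CC : Finset (Finset (Sym2 V))} (h : Copies H CC)
    (M : Finset (Sym2 V)) {a b : V} (hab : MP3240X.Rch (vsets CC) a b) :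
    (GA CC M).Reachable a b := by
  induction hab with
  | refl => exact SimpleGraph.Reachable.refl _
  | tail _ h2 ih =>
    obtain ⟨o', ho', h3, h4⟩ := h2
    obtain ⟨C', hC', rfl⟩ := mem_vsets.mp ho'
    exact ih.trans (GA_reach h M hC' h3 h4)

/-- `Inn`: an edge inside a component lies in a core. -/
theorem Copies.inn {H : SimpleGraph V} {CC : Finset (Finset (Sym2 V))} (h : Copies H CC) :
    MP3240X.Inn H (vsets CC) := by
  classical
  intro u v huv hr
  by_contra hno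
  have hno' : ∀ C ∈ CC, s(u, v) ∉ C := fun C hC hm =>
    hno ⟨vs C, mem_vsets.mpr ⟨C, hC, rfl⟩, mem_vs_left hm, mem_vs_right hm⟩
  obtain ⟨o, ho, hu, w, hw, hwu, hr'⟩ := h.exit ∅ huv.ne (by simp) (Rch_GA h ∅ hr)
  refine h.noear {s(u, v)} ?_ ?_ ho ?_ hw hu hwu ?_
  · intro e he
    rw [Finset.mem_singleton.mp he]
    exact huv
  · intro e he e' he' _ _ _
    rw [Finset.mem_singleton.mp he, Finset.mem_singleton.mp he']
  · intro e he
    rw [Finset.mem_singleton.mp he]
    exact hno' o ho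
  · refine (GM_mono (Finset.empty_subset _) hr').trans (SimpleGraph.Adj.reachable ?_)
    rw [GM, SimpleGraph.fromEdgeSet_adj]
    exact ⟨Or.inr (by rw [Finset.mem_singleton, Sym2.eq_swap]), huv.ne.symm⟩

/-- (LIGHT): an edge of a matching of edges between different components is a bridge. -/
theorem Copies.light {H : SimpleGraph V} {CC : Finset (Finset (Sym2 V))} (h : Copies H CC)
    (M : Finset (Sym2 V)) (hM : ∀ e ∈ M, e ∈ H.edgeSet)
    (hMm : ∀ e ∈ M, ∀ e' ∈ M, ∀ x, x ∈ e → x ∈ e' → e = e')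
    (hMc : ∀ u v, s(u, v) ∈ M → ¬ MP3240X.Rch (vsets CC) u v) {u v : V} (huv : s(u, v) ∈ M)
    (hr : Relation.ReflTransGen (fun a b => MP3240X.Stp (vsets CC) a b ∨
      (s(a, b) ∈ M ∧ s(a, b) ≠ s(u, v))) u v) : False := by
  classical
  have hne : u ≠ v := (SimpleGraph.mem_edgeSet H).mp (hM _ huv) |>.ne
  have hMo : ∀ o ∈ CC, ∀ e ∈ M, e ∉ o := by
    intro o ho e he heo
    induction e using Sym2.ind with
    | _ a b =>
      exact hMc a b he (MP3240X.Stp.rch ⟨vs o, mem_vsets.mpr ⟨o, ho, rfl⟩, mem_vs_left heo,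
        mem_vs_right heo⟩)
  have key : ∀ b, Relation.ReflTransGen (fun a b => MP3240X.Stp (vsets CC) a b ∨
      (s(a, b) ∈ M ∧ s(a, b) ≠ s(u, v))) u b → (GA CC (M.erase s(u, v))).Reachable u b := by
    intro b hb
    induction hb with
    | refl => exact SimpleGraph.Reachable.refl _
    | tail _ h2 ih =>
      rename_i c d _
      refine ih.trans ?_
      rcases h2 with ⟨o', ho', h3, h4⟩ | ⟨h3, h4⟩
      · obtain ⟨C', hC', rfl⟩ := mem_vsets.mp ho'
        exact GA_reach h _ hC' h3 h4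
      · refine SimpleGraph.Adj.reachable ?_
        rw [GA, SimpleGraph.fromEdgeSet_adj]
        exact ⟨Or.inr (Finset.mem_erase.mpr ⟨h4, h3⟩),
          ((SimpleGraph.mem_edgeSet H).mp (hM _ h3)).ne⟩
  obtain ⟨o, ho, hu, w, hw, hwu, hr'⟩ := h.exit (M.erase s(u, v)) hne (by
    intro e he hue
    have := hMm e (Finset.mem_erase.mp he).2 _ huv u hue (Sym2.mem_mk_left _ _)
    exact (Finset.mem_erase.mp he).1 this) (key v hr)
  refine h.noear M hM hMm ho (hMo o ho) hw hu hwu ?_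
  refine (GM_mono (Finset.erase_subset _ _) hr').trans (SimpleGraph.Adj.reachable ?_)
  rw [GM, SimpleGraph.fromEdgeSet_adj]
  exact ⟨Or.inr (by rw [Sym2.eq_swap]; exact huv), hne.symm⟩

/-- (LIGHT) in the form of the walk. -/
theorem Copies.lightX {H : SimpleGraph V} {CC : Finset (Finset (Sym2 V))} (h : Copies H CC) :
    MP3240X.Light H (vsets CC) := by
  classical
  intro Lam hL p hp hr
  set M : Finset (Sym2 V) := Lam.image (fun q => s(q.1, q.2)) with hM
  have hmem : ∀ e, e ∈ M ↔ ∃ q ∈ Lam, s(q.1, q.2) = e := by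
    intro e
    rw [hM]
    exact Finset.mem_image
  refine h.light M ?_ ?_ ?_ (u := p.2) (v := p.1) ?_ ?_
  · intro e he
    obtain ⟨q, hq, rfl⟩ := (hmem e).mp he
    exact hL.adj q hq
  · intro e he e' he' x hx hx'
    obtain ⟨q, hq, rfl⟩ := (hmem e).mp he
    obtain ⟨q', hq', rfl⟩ := (hmem e').mp he'
    by_contra hne
    have hqq : q ≠ q' := by
      rintro rfl
      exact hne rfl
    obtain ⟨h1, h2, h3, h4⟩ := hL.mat q hq q' hq' hqq
    rw [Sym2.mem_iff] at hx hx'
    rcases hx with rfl | rfl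
    · rcases hx' with h5 | h5
      · exact h1 h5
      · exact h2 h5
    · rcases hx' with h5 | h5
      · exact h3 h5
      · exact h4 h5
  · intro u v huv hrch
    obtain ⟨q, hq, hquv⟩ := (hmem _).mp huv
    rw [Sym2.eq_iff] at hquv
    rcases hquv with ⟨h1, h2⟩ | ⟨h1, h2⟩
    · exact hL.far q hq (by rw [h1, h2]; exact hrch)
    · exact hL.far q hq (by rw [h1, h2]; exact hrch.symm)
  · exact (hmem _).mpr ⟨p, hp, Sym2.eq_swap⟩
  · refine Relation.ReflTransGen.mono ?_ _ _ hr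
    intro a b hab
    have key : ∀ c d : V, (c, d) ∈ Lam → (c, d) ≠ p → s(c, d) ∈ M ∧ s(c, d) ≠ s(p.2, p.1) := by
      intro c d hcd hne
      refine ⟨(hmem _).mpr ⟨(c, d), hcd, rfl⟩, ?_⟩
      intro h5
      obtain ⟨h1, h2, -, -⟩ := hL.mat (c, d) hcd p hp hne
      rw [Sym2.eq_iff] at h5
      rcases h5 with ⟨h6, -⟩ | ⟨h6, -⟩
      · exact h2 h6
      · exact h1 h6
    rcases hab with h1 | ⟨h1, h2⟩ | ⟨h1, h2⟩
    · exact Or.inl h1
    · exact Or.inr (key a b h1 h2)
    · right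
      rw [Sym2.eq_swap]
      exact key b a h1 h2

/-- (A1) -/
theorem Copies.a1 {H : SimpleGraph V} {CC : Finset (Finset (Sym2 V))} (h : Copies H CC) :
    ∀ o ∈ vsets CC, ∀ v, ∃ x ∈ o, ∃ y ∈ o, x ≠ v ∧ y ≠ v ∧ H.Adj x y := by
  intro o ho v
  obtain ⟨C, hC, rfl⟩ := mem_vsets.mp ho
  obtain ⟨e, he, hve⟩ := TwoC_off (h.two C hC) (h.nt C hC) v
  have hH := h.sub C hC e he
  induction e using Sym2.ind with
  | _ a b =>
    refine ⟨a, mem_vs_left he, b, mem_vs_right he, ?_, ?_, hH⟩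
    · rintro rfl
      exact hve (Sym2.mem_mk_left _ _)
    · rintro rfl
      exact hve (Sym2.mem_mk_right _ _)

/-- **The walk, for the copies of a core.**  For every independent set `X` which meets all copies
there are an independent set `X'` with `|X'| + 1 ≤ |X|` and an edge in every copy not met by `X'`,
such that these edges form an induced matching, their ends lie in no other copy, and they have no
neighbour in `X'`. -/
theorem Copies.walk {H : SimpleGraph V} {CC : Finset (Finset (Sym2 V))} (h : Copies H CC)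
    (hne : CC.Nonempty) {X : Finset V} (hX : ∀ x ∈ X, ∀ y ∈ X, ¬ H.Adj x y)
    (hXm : ∀ C ∈ CC, ∃ x ∈ X, x ∈ vs C) :
    ∃ (X' : Finset V) (e : Finset (Sym2 V) → V × V), (∀ x ∈ X', ∀ y ∈ X', ¬ H.Adj x y) ∧
      X'.card + 1 ≤ X.card ∧ (∀ x ∈ X', ∃ C ∈ CC, x ∈ vs C) ∧
      ∀ C ∈ CC, (∀ x ∈ X', x ∉ vs C) →
        s((e C).1, (e C).2) ∈ C ∧
        (∀ C' ∈ CC, C' ≠ C → (e C).1 ∉ vs C' ∧ (e C).2 ∉ vs C') ∧
        (∀ x ∈ X', ¬ H.Adj x (e C).1 ∧ ¬ H.Adj x (e C).2) ∧
        ∀ C' ∈ CC, (∀ x ∈ X', x ∉ vs C') → C' ≠ C →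
          ¬ H.Adj (e C).1 (e C').1 ∧ ¬ H.Adj (e C).1 (e C').2 ∧
          ¬ H.Adj (e C).2 (e C').1 ∧ ¬ H.Adj (e C).2 (e C').2 := by
  classical
  obtain ⟨C0, hC0⟩ := hne
  obtain ⟨X', e, hi, hc, hcov, he⟩ := MP3240X.walk_abs h.sep h.inn h.a1 h.lightX
    ⟨vs C0, mem_vsets.mpr ⟨C0, hC0, rfl⟩⟩ (X := X) hX (by
      intro o ho
      obtain ⟨C, hC, rfl⟩ := mem_vsets.mp ho
      obtain ⟨x, hx, hxC⟩ := hXm C hC
      exact ⟨x, hxC, hx⟩)
  have hinj : ∀ C ∈ CC, ∀ C' ∈ CC, C' ≠ C → vs C' ≠ vs C := by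
    intro C hC C' hC' hne hvs
    obtain ⟨e1, he1, -⟩ := h.nt C hC
    have hH := h.sub C hC e1 he1
    induction e1 using Sym2.ind with
    | _ x y =>
    have hx : x ∈ vs C := mem_vs_left he1
    have hy : y ∈ vs C := mem_vs_right he1
    have hxy : H.Adj x y := hH
    exact hne (h.inter hC' hC hxy.ne (by rw [hvs]; exact hx) (by rw [hvs]; exact hy) hx hy)
  refine ⟨X', fun C => e (vs C), hi, hc, ?_, ?_⟩
  · intro x hx
    obtain ⟨o, ho, hxo⟩ := hcov x hx
    obtain ⟨C, hC, rfl⟩ := mem_vsets.mp ho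
    exact ⟨C, hC, hxo⟩
  · intro C hC hno
    obtain ⟨h1, h2, h3, h4, h5, h6⟩ := he (vs C) (mem_vsets.mpr ⟨C, hC, rfl⟩)
      (fun x hx hx' => hno x hx' hx)
    refine ⟨h.induced hC h1 h2 h3, ?_, h5, ?_⟩
    · intro C' hC' hne
      exact h4 (vs C') (mem_vsets.mpr ⟨C', hC', rfl⟩) (hinj C hC C' hC' hne)
    · intro C' hC' hno' hne
      exact h6 (vs C') (mem_vsets.mpr ⟨C', hC', rfl⟩) (fun x hx hx' => hno' x hx' hx)
        (hinj C hC C' hC' hne)

end MP3240K
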