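import Pool.Agent.Lib.MP_3240be_co.H43.Defs

/-!
# MP_3240be_co: cores of a graph (findings 4717, 4722): ears, clusters

`TwoC` sets of edges, unions along ears, and the consequences of the maximality of a family of
copies of one 2-connected graph.
-/

set_option autoImplicit false

namespace MP3240K

open Finset MP3240W

variable {V : Type} [Fintype V] [DecidableEq V]

/-- The vertices of a set of edges. -/
def vs (I : Finset (Sym2 V)) : Finset V := univ.filter (fun v => ∃ e ∈ I, v ∈ e)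

theorem mem_vs {I : Finset (Sym2 V)} {v : V} : v ∈ vs I ↔ ∃ e ∈ I, v ∈ e := by
  simp [vs]

theorem vs_mono {I J : Finset (Sym2 V)} (h : I ⊆ J) : vs I ⊆ vs J := by
  intro v hv
  obtain ⟨e, he, hv⟩ := mem_vs.mp hv
  exact mem_vs.mpr ⟨e, h he, hv⟩

theorem shares_iff {I J : Finset (Sym2 V)} {v : V} : Shares I J v ↔ v ∈ vs I ∧ v ∈ vs J := by
  simp only [Shares, mem_vs]

/-- A `TwoC` set that is covered by two disjoint sets lies in one of them, or they share two
vertices. -/
theorem TwoC_split {I K K' : Finset (Sym2 V)} (hI : TwoC I) (hd : Disjoint K K')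
    (hp : ∀ e ∈ I, e ∈ K ∨ e ∈ K') :
    (∃ u v, u ≠ v ∧ Shares K K' u ∧ Shares K K' v) ∨ I ⊆ K ∨ I ⊆ K' := by
  classical
  by_cases h1 : I ⊆ K
  · exact Or.inr (Or.inl h1)
  by_cases h2 : I ⊆ K'
  · exact Or.inr (Or.inr h2)
  obtain ⟨e1, he1, hn1⟩ := Finset.not_subset.mp h1
  obtain ⟨e2, he2, hn2⟩ := Finset.not_subset.mp h2
  obtain ⟨u, v, huv, hu, hv⟩ := hI (I.filter (· ∈ K)) (I.filter (· ∈ K'))
    ⟨e2, Finset.mem_filter.mpr ⟨he2, (hp e2 he2).resolve_right hn2⟩⟩
    ⟨e1, Finset.mem_filter.mpr ⟨he1, (hp e1 he1).resolve_left hn1⟩⟩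
    (by
      rw [Finset.disjoint_left]
      intro e he he'
      exact Finset.disjoint_left.mp hd (Finset.mem_filter.mp he).2 (Finset.mem_filter.mp he').2)
    (by
      intro e
      rw [Finset.mem_filter, Finset.mem_filter]
      constructor
      · intro he
        rcases hp e he with h | h
        · exact Or.inl ⟨he, h⟩
        · exact Or.inr ⟨he, h⟩
      · rintro (h | h)
        · exact h.1
        · exact h.1)
  have key : ∀ w, Shares (I.filter (· ∈ K)) (I.filter (· ∈ K')) w → Shares K K' w := by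
    rintro w ⟨⟨e, he, hw⟩, ⟨e', he', hw'⟩⟩
    exact ⟨⟨e, (Finset.mem_filter.mp he).2, hw⟩, ⟨e', (Finset.mem_filter.mp he').2, hw'⟩⟩
  exact Or.inl ⟨u, v, huv, key u hu, key v hv⟩

theorem shares_symm {I J : Finset (Sym2 V)} {v : V} (h : Shares I J v) : Shares J I v :=
  ⟨h.2, h.1⟩

/-- One half of the ear lemma: `O` lies in the first part. -/
theorem ear_half {O : Finset (Sym2 V)} (l : ℕ) (p : ℕ → V)
    (hinj : ∀ i ≤ l, ∀ j ≤ l, p i = p j → i = j) (h0 : p 0 ∈ vs O) (hl : p l ∈ vs O)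
    (A : ℕ → Finset (Sym2 V)) (hA : ∀ i < l, TwoC (A i)) (hAe : ∀ i < l, s(p i, p (i + 1)) ∈ A i)
    {K K' : Finset (Sym2 V)} (hK' : K'.Nonempty) (hd : Disjoint K K')
    (hp : ∀ e, e ∈ O ∪ (range l).biUnion A ↔ e ∈ K ∨ e ∈ K') (hOK : O ⊆ K) :
    ∃ u v, u ≠ v ∧ Shares K K' u ∧ Shares K K' v := by
  classical
  by_contra hno
  have hsplit : ∀ i < l, A i ⊆ K ∨ A i ⊆ K' := by
    intro i hi
    rcases TwoC_split (hA i hi) hd (fun e he => (hp e).mp (Finset.mem_union_right _
      (Finset.mem_biUnion.mpr ⟨i, Finset.mem_range.mpr hi, he⟩))) with h | h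
    · exact absurd h hno
    · exact h
  set S : Finset ℕ := (range l).filter (fun i => A i ⊆ K') with hS
  have hSne : S.Nonempty := by
    obtain ⟨e, he⟩ := hK'
    have heK : e ∉ K := fun h => Finset.disjoint_left.mp hd h he
    rcases Finset.mem_union.mp ((hp e).mpr (Or.inr he)) with h | h
    · exact absurd (hOK h) heK
    · obtain ⟨i, hi, hei⟩ := Finset.mem_biUnion.mp h
      have hi' := Finset.mem_range.mp hi
      rcases hsplit i hi' with h2 | h2
      · exact absurd (h2 hei) heK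
      · exact ⟨i, Finset.mem_filter.mpr ⟨hi, h2⟩⟩
  have hmin := S.min'_mem hSne
  have hmax := S.max'_mem hSne
  set a := S.min' hSne with ha
  set b := S.max' hSne with hb
  have hal : a < l := Finset.mem_range.mp (Finset.mem_filter.mp hmin).1
  have hbl : b < l := Finset.mem_range.mp (Finset.mem_filter.mp hmax).1
  have haK' : A a ⊆ K' := (Finset.mem_filter.mp hmin).2
  have hbK' : A b ⊆ K' := (Finset.mem_filter.mp hmax).2
  have hab : a ≤ b := Finset.min'_le _ _ hmax
  have hpre : ∀ i < a, A i ⊆ K := by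
    intro i hi
    rcases hsplit i (lt_trans hi hal) with h | h
    · exact h
    · have : i ∈ S := Finset.mem_filter.mpr ⟨Finset.mem_range.mpr (lt_trans hi hal), h⟩
      have := Finset.min'_le S i this
      omega
  have hpost : ∀ i, b < i → i < l → A i ⊆ K := by
    intro i hi hil
    rcases hsplit i hil with h | h
    · exact h
    · have : i ∈ S := Finset.mem_filter.mpr ⟨Finset.mem_range.mpr hil, h⟩
      have := Finset.le_max' S i this
      omega
  apply hno
  refine ⟨p a, p (b + 1), ?_, ?_, ?_⟩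
  · intro h
    have := hinj a (by omega) (b + 1) (by omega) h
    omega
  · refine ⟨?_, s(p a, p (a + 1)), haK' (hAe a hal), Sym2.mem_mk_left _ _⟩
    rcases Nat.eq_zero_or_pos a with h | h
    · rw [h]
      obtain ⟨e, he, hv⟩ := mem_vs.mp h0
      exact ⟨e, hOK he, hv⟩
    · obtain ⟨c, hc⟩ : ∃ c, a = c + 1 := ⟨a - 1, by omega⟩
      refine ⟨s(p c, p (c + 1)), hpre c (by omega) (hAe c (by omega)), ?_⟩
      rw [hc]
      exact Sym2.mem_mk_right _ _
  · refine ⟨?_, s(p b, p (b + 1)), hbK' (hAe b hbl), Sym2.mem_mk_right _ _⟩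
    rcases Nat.eq_or_lt_of_le (Nat.succ_le_of_lt hbl) with h | h
    · have h' : b + 1 = l := h
      rw [h']
      obtain ⟨e, he, hv⟩ := mem_vs.mp hl
      exact ⟨e, hOK he, hv⟩
    · exact ⟨s(p (b + 1), p (b + 1 + 1)), hpost (b + 1) (by omega) h (hAe (b + 1) h),
        Sym2.mem_mk_left _ _⟩

/-- The ear lemma: a `TwoC` set `O`, a path between two vertices of `O`, and `TwoC` sets which
contain the edges of the path. -/
theorem ear {O : Finset (Sym2 V)} (hO : TwoC O) (l : ℕ) (p : ℕ → V)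
    (hinj : ∀ i ≤ l, ∀ j ≤ l, p i = p j → i = j) (h0 : p 0 ∈ vs O) (hl : p l ∈ vs O)
    (A : ℕ → Finset (Sym2 V)) (hA : ∀ i < l, TwoC (A i))
    (hAe : ∀ i < l, s(p i, p (i + 1)) ∈ A i) : TwoC (O ∪ (range l).biUnion A) := by
  classical
  intro K K' hK hK' hd hp
  rcases TwoC_split hO hd (fun e he => (hp e).mp (Finset.mem_union_left _ he)) with h | h | h
  · exact h
  · exact ear_half l p hinj h0 hl A hA hAe hK' hd hp h
  · obtain ⟨u, v, huv, hu, hv⟩ := ear_half l p hinj h0 hl A hA hAe hK hd.symm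
      (fun e => (hp e).trans or_comm) h
    exact ⟨u, v, huv, shares_symm hu, shares_symm hv⟩

/-- The union of two `TwoC` sets with two common vertices. -/
theorem TwoC_union {I J : Finset (Sym2 V)} (hI : TwoC I) (hJ : TwoC J) {u v : V} (huv : u ≠ v)
    (hu : u ∈ vs I) (hv : v ∈ vs I) (hu' : u ∈ vs J) (hv' : v ∈ vs J) : TwoC (I ∪ J) := by
  classical
  intro K K' hK hK' hd hp
  rcases TwoC_split hI hd (fun e he => (hp e).mp (Finset.mem_union_left _ he)) with h | h
  · exact h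
  rcases TwoC_split hJ hd (fun e he => (hp e).mp (Finset.mem_union_right _ he)) with h' | h'
  · exact h'
  have both : ∀ {L L' : Finset (Sym2 V)}, L'.Nonempty → Disjoint L L' →
      (∀ e, e ∈ L' → e ∈ I ∪ J) → I ⊆ L → J ⊆ L → False := by
    intro L L' hne hd2 hsub h1 h2
    obtain ⟨e, he⟩ := hne
    rcases Finset.mem_union.mp (hsub e he) with h3 | h3
    · exact Finset.disjoint_left.mp hd2 (h1 h3) he
    · exact Finset.disjoint_left.mp hd2 (h2 h3) he
  rcases h with h | h <;> rcases h' with h' | h'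
  · exact (both hK' hd (fun e he => (hp e).mpr (Or.inr he)) h h').elim
  · exact ⟨u, v, huv, shares_iff.mpr ⟨vs_mono h hu, vs_mono h' hu'⟩,
      shares_iff.mpr ⟨vs_mono h hv, vs_mono h' hv'⟩⟩
  · exact ⟨u, v, huv, shares_iff.mpr ⟨vs_mono h' hu', vs_mono h hu⟩,
      shares_iff.mpr ⟨vs_mono h' hv', vs_mono h hv⟩⟩
  · exact (both hK hd.symm (fun e he => (hp e).mpr (Or.inl he)) h h').elim

/-- A set with one edge is `TwoC`. -/
theorem TwoC_singleton (e : Sym2 V) : TwoC ({e} : Finset (Sym2 V)) := by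
  intro K K' hK hK' hd hp
  exfalso
  obtain ⟨a, ha⟩ := hK
  obtain ⟨b, hb⟩ := hK'
  have h1 := Finset.mem_singleton.mp ((hp a).mpr (Or.inl ha))
  have h2 := Finset.mem_singleton.mp ((hp b).mpr (Or.inr hb))
  rw [h1] at ha
  rw [h2] at hb
  exact Finset.disjoint_left.mp hd ha hb

/-- A `TwoC` set is connected. -/
theorem TwoC_reachable {C : Finset (Sym2 V)} (hC : TwoC C) (G : SimpleGraph V)
    (hG : ∀ e ∈ C, e ∈ G.edgeSet) {a b : V} (ha : a ∈ vs C) (hb : b ∈ vs C) : G.Reachable a b := by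
  classical
  by_contra hab
  set K := C.filter (fun e => ∀ x ∈ e, G.Reachable a x) with hK
  set K' := C.filter (fun e => ¬ ∀ x ∈ e, G.Reachable a x) with hK'
  have adj : ∀ e ∈ C, ∀ x ∈ e, ∀ y ∈ e, G.Reachable a x → G.Reachable a y := by
    intro e he x hx y hy hax
    by_cases hxy : x = y
    · rw [← hxy]; exact hax
    · have hexy : e = s(x, y) := ((Sym2.mem_and_mem_iff hxy).mp ⟨hx, hy⟩)
      have := hG e he
      rw [hexy, SimpleGraph.mem_edgeSet] at this
      exact hax.trans this.reachable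
  obtain ⟨ea, hea, hae⟩ := mem_vs.mp ha
  obtain ⟨eb, heb, hbe⟩ := mem_vs.mp hb
  have h1 : ea ∈ K := Finset.mem_filter.mpr ⟨hea, fun x hx => adj ea hea a hae x hx
    (SimpleGraph.Reachable.refl a)⟩
  have h2 : eb ∈ K' := Finset.mem_filter.mpr ⟨heb, fun h => hab (h b hbe)⟩
  obtain ⟨u, -, -, hu, -⟩ := hC K K' ⟨ea, h1⟩ ⟨eb, h2⟩
    (by
      rw [Finset.disjoint_left]
      intro e he he'
      exact (Finset.mem_filter.mp he').2 (Finset.mem_filter.mp he).2)
    (by
      intro e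
      rw [hK, hK', Finset.mem_filter, Finset.mem_filter]
      tauto)
  obtain ⟨⟨e, he, hue⟩, ⟨e', he', hue'⟩⟩ := hu
  have h3 := (Finset.mem_filter.mp he).2 u hue
  exact (Finset.mem_filter.mp he').2 (fun x hx => adj e' (Finset.mem_filter.mp he').1 u hue' x hx h3)

/-- A `TwoC` set with two edges contains an edge off every vertex. -/
theorem TwoC_off {C : Finset (Sym2 V)} (hC : TwoC C) (hn : ∃ e ∈ C, ∃ e' ∈ C, e ≠ e')
    (s : V) : ∃ e ∈ C, s ∉ e := by
  classical
  by_contra hall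
  have hall' : ∀ e ∈ C, s ∈ e := by
    intro e he
    by_contra h
    exact hall ⟨e, he, h⟩
  obtain ⟨e, he, e', he', hne⟩ := hn
  obtain ⟨u, v, huv, hu, hv⟩ := hC {e} (C.erase e) ⟨e, Finset.mem_singleton_self e⟩
    ⟨e', Finset.mem_erase.mpr ⟨hne.symm, he'⟩⟩
    (by
      rw [Finset.disjoint_left]
      intro x hx hx'
      rw [Finset.mem_singleton] at hx
      exact (Finset.mem_erase.mp hx').1 hx)
    (by
      intro x
      rw [Finset.mem_singleton, Finset.mem_erase]
      constructor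
      · intro hx
        by_cases h : x = e
        · exact Or.inl h
        · exact Or.inr ⟨h, hx⟩
      · rintro (h | h)
        · rw [h]; exact he
        · exact h.2)
  -- one of `u`, `v` is not `s`
  obtain ⟨w, hws, hw⟩ : ∃ w, w ≠ s ∧ Shares {e} (C.erase e) w := by
    by_cases h : u = s
    · exact ⟨v, fun h2 => huv (h.trans h2.symm), hv⟩
    · exact ⟨u, h, hu⟩
  obtain ⟨⟨e1, he1, hw1⟩, ⟨e2, he2, hw2⟩⟩ := hw
  rw [Finset.mem_singleton] at he1
  have h1 : e1 = s(w, s) := (Sym2.mem_and_mem_iff hws).mp ⟨hw1, by rw [he1]; exact hall' e he⟩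
  have h2 : e2 = s(w, s) := (Sym2.mem_and_mem_iff hws).mp
    ⟨hw2, hall' e2 (Finset.mem_erase.mp he2).2⟩
  exact (Finset.mem_erase.mp he2).1 (by rw [h2, ← h1, he1])

end MP3240K
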